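import Pool.Agent.Q59.GH.Coset

/-!
# The fractional part on the circle
-/

namespace Pool.Agent.Q59.GH

open Finset Filter Topology
open Pool.Agent.Q59.QP

/-- the fractional part -/
noncomputable def fr (z : UnitAddCircle) : ℝ := AddCircle.liftIco 1 0 (fun y : ℝ => y) z

lemma fr_coe {y : ℝ} (h0 : 0 ≤ y) (h1 : y < 1) : fr (y : UnitAddCircle) = y := by
  unfold fr
  rw [AddCircle.liftIco_coe_apply (by simpa using ⟨h0, h1⟩)]

@[simp] lemma fr_zero : fr 0 = 0 := by
  have := fr_coe (y := 0) le_rfl zero_lt_one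
  simpa using this

lemma coe_fr (z : UnitAddCircle) : ((fr z : ℝ) : UnitAddCircle) = z := by
  obtain ⟨y, ⟨h0, h1⟩, rfl⟩ := AddCircle.eq_coe_Ico z
  rw [fr_coe h0 h1]

lemma fr_nonneg (z : UnitAddCircle) : 0 ≤ fr z := by
  obtain ⟨y, ⟨h0, h1⟩, rfl⟩ := AddCircle.eq_coe_Ico z
  rwa [fr_coe h0 h1]

lemma fr_lt_one (z : UnitAddCircle) : fr z < 1 := by
  obtain ⟨y, ⟨h0, h1⟩, rfl⟩ := AddCircle.eq_coe_Ico z
  rwa [fr_coe h0 h1]

lemma fr_pos {z : UnitAddCircle} (hz : z ≠ 0) : 0 < fr z := by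
  refine lt_of_le_of_ne (fr_nonneg z) fun h => hz ?_
  rw [← coe_fr z, ← h]
  rfl

lemma fr_neg {z : UnitAddCircle} (hz : z ≠ 0) : fr (-z) = 1 - fr z := by
  have h1 := fr_pos hz
  have h2 := fr_lt_one z
  have e1 : -z = ((1 - fr z : ℝ) : UnitAddCircle) := by
    rw [AddCircle.coe_sub, coe_fr]
    have : ((1 : ℝ) : UnitAddCircle) = 0 := AddCircle.coe_period 1
    rw [this, zero_sub]
  rw [e1, fr_coe (by linarith) (by linarith)]

lemma isOpen_fr (a : ℝ) : IsOpen {z : UnitAddCircle | a < fr z} := by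
  rcases lt_or_ge a 0 with ha | ha
  · have : {z : UnitAddCircle | a < fr z} = Set.univ := by
      ext z
      simp only [Set.mem_ofPred_eq, Set.mem_univ, iff_true]
      exact ha.trans_le (fr_nonneg z)
    rw [this]
    exact isOpen_univ
  · have : {z : UnitAddCircle | a < fr z} = (fun y : ℝ => (y : UnitAddCircle)) '' Set.Ioo a 1 := by
      ext z
      simp only [Set.mem_ofPred_eq, Set.mem_image, Set.mem_Ioo]
      constructor
      · intro h
        exact ⟨fr z, ⟨h, fr_lt_one z⟩, coe_fr z⟩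
      · rintro ⟨y, ⟨h1, h2⟩, rfl⟩
        rw [fr_coe (by linarith) h2]
        exact h1
    rw [this]
    exact QuotientAddGroup.isOpenMap_coe _ isOpen_Ioo

lemma lsc_fr : LowerSemicontinuous fr := fun z a ha => (isOpen_fr a).mem_nhds ha

lemma fr_pt {κ r : ℕ} (hr : r < κ) : fr (pt κ r) = r / κ := by
  unfold pt
  have h1 : (0 : ℝ) < κ := by
    have : 0 < κ := by omega
    exact_mod_cast this
  rw [fr_coe (by positivity)]
  rw [div_lt_one h1]
  exact_mod_cast hr

/-- small torsion points are zero -/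
lemma eq_zero_of_small {D : ℕ} (hD : 0 < D) {δ : ℝ} (h1 : D • ((δ : ℝ) : UnitAddCircle) = 0)
    (h2 : |δ| * D < 1) : ((δ : ℝ) : UnitAddCircle) = 0 := by
  rw [← AddCircle.coe_nsmul, AddCircle.coe_eq_zero_iff] at h1
  obtain ⟨n, hn⟩ := h1
  rw [zsmul_eq_mul, mul_one, nsmul_eq_mul] at hn
  have hD' : (0 : ℝ) < D := by exact_mod_cast hD
  have h3 : |(n : ℝ)| < 1 := by
    rw [hn, abs_mul, abs_of_pos hD', mul_comm]
    exact h2
  have h4 : n = 0 := by
    rw [← Int.cast_abs] at h3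
    have : |n| < 1 := by exact_mod_cast h3
    exact Int.abs_lt_one_iff.mp this
  rw [h4, Int.cast_zero] at hn
  have h5 : δ = 0 := by
    rcases mul_eq_zero.mp hn.symm with h | h
    · exact absurd h hD'.ne'
    · exact h
  rw [h5]
  rfl

section

variable {ι : Type*} [Fintype ι]

/-- tuples with sum zero and age at most `d` -/
def FF (ι : Type*) [Fintype ι] (d : ℕ) : Set (ι → UnitAddCircle) :=
  {x | ∑ i, x i = 0 ∧ ∑ i, fr (x i) ≤ d}

lemma isClosed_FF (d : ℕ) : IsClosed (FF ι d) := by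
  refine IsClosed.and ?_ ?_
  · exact isClosed_eq (continuous_finsetSum _ fun i _ => continuous_apply i) continuous_const
  · have h1 : LowerSemicontinuous fun x : ι → UnitAddCircle => ∑ i, fr (x i) :=
      lowerSemicontinuous_sum fun i _ => lsc_fr.comp (continuous_apply i)
    exact h1.isClosed_preimage (d : ℝ)

end

end Pool.Agent.Q59.GH
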