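import Pool.Agent.Q59.GH.Ext

/-!
# Cosets of tuples of small age: the dimension and the cosets of maximal dimension
-/

namespace Pool.Agent.Q59.GH

open Finset Filter Topology
open Pool.Agent.Q59.QP

section

variable {ι : Type*} [Fintype ι] {E : Eqs ι} {d : ℕ}

lemma fr_neg_pt {M r : ℕ} (h0 : 0 < r) (hr : r < M) : fr (-pt M r) = 1 - r / M := by
  have h1 : pt M r ≠ 0 := by
    intro h
    have h2 := fr_pt hr
    rw [h, fr_zero] at h2
    have h3 : (0 : ℝ) < r := by exact_mod_cast h0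
    have h4 : (0 : ℝ) < M := by exact_mod_cast (h0.trans hr)
    have : (0 : ℝ) < r / M := by positivity
    linarith
  rw [fr_neg h1, fr_pt hr]

lemma Formal.mem (hE : Formal (FF ι d) E) {x : ι → UnitAddCircle} (hx : Cos E x) (ht : Tors x) :
    ∑ i, x i = 0 ∧ ∑ i, fr (x i) ≤ d := by
  obtain ⟨m, _, _, h⟩ := hE.gal x hx ht
  have h1 := h 1 (Nat.coprime_one_left m)
  rwa [one_smul] at h1

/-- **The dimension of a coset of tuples of age at most `d` is at most `d`.** -/
theorem card_le_of_formal (hE : Formal (FF ι d) E) (b : Bas (lat E)) {x0 : ι → UnitAddCircle}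
    (h0 : Cos E x0) (ht : Tors x0) : b.B.card ≤ d := by
  classical
  by_contra hcon
  push Not at hcon
  have hB : 1 ≤ b.B.card := by omega
  obtain ⟨x, hx, htx, hxB⟩ := exists_point b h0 ht (y := fun _ => -pt (b.B.card + 1) 1)
    (Q := b.B.card + 1) (Nat.succ_pos _) (fun i _ => by
      rw [smul_neg, nsmul_pt (Nat.succ_pos _), neg_zero])
  have h1 := (hE.mem hx htx).2
  have h2 : ∑ i ∈ b.B, fr (x i) ≤ ∑ i, fr (x i) :=
    sum_le_sum_of_subset_of_nonneg (subset_univ _) fun i _ _ => fr_nonneg _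
  have h3 : ∑ i ∈ b.B, fr (x i) = b.B.card * (1 - 1 / ((b.B.card : ℝ) + 1)) := by
    rw [sum_congr rfl fun i hi => by
      rw [hxB i hi, fr_neg_pt one_pos (by omega : 1 < b.B.card + 1)], sum_const, nsmul_eq_mul]
    push_cast
    ring
  have h4 : ((b.B.card : ℝ) - 1) < b.B.card * (1 - 1 / ((b.B.card : ℝ) + 1)) := by
    have h5 : (0 : ℝ) < (b.B.card : ℝ) + 1 := by positivity
    have h6 : (b.B.card : ℝ) * (1 - 1 / ((b.B.card : ℝ) + 1)) =
        b.B.card - b.B.card / ((b.B.card : ℝ) + 1) := by ring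
    have h7 : (b.B.card : ℝ) / ((b.B.card : ℝ) + 1) < 1 := by
      rw [div_lt_one h5]
      linarith
    rw [h6]
    linarith
  have h5 : (d : ℝ) + 1 ≤ b.B.card := by exact_mod_cast hcon
  linarith

/-- the points near the corner -/
lemma small (hE : Formal (FF ι d) E) (b : Bas (lat E)) (hd : b.B.card = d)
    {x : ι → UnitAddCircle} (hx : Cos E x) (ht : Tors x) {M : ℕ} {r : ι → ℕ}
    (hr : ∀ i ∈ b.B, 0 < r i) (hM : ∑ i ∈ b.B, r i < M) (hxB : ∀ i ∈ b.B, x i = -pt M (r i))
    {j : ι} (hj : j ∉ b.B) : fr (x j) ≤ (∑ i ∈ b.B, r i : ℕ) / M := by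
  classical
  have h1 := (hE.mem hx ht).2
  have h2 : ∑ i ∈ b.B, fr (x i) = d - (∑ i ∈ b.B, r i : ℕ) / M := by
    rw [sum_congr rfl fun i hi => by
      rw [hxB i hi, fr_neg_pt (hr i hi) (lt_of_le_of_lt
        (single_le_sum (f := r) (fun _ _ => Nat.zero_le _) hi) hM)], sum_sub_distrib, sum_const,
      nsmul_eq_mul, mul_one, hd, ← sum_div]
    push_cast
    rfl
  have h3 : fr (x j) + ∑ i ∈ b.B, fr (x i) ≤ ∑ i, fr (x i) := by
    rw [← sum_insert (f := fun i => fr (x i)) hj]
    exact sum_le_sum_of_subset_of_nonneg (subset_univ _) fun i _ _ => fr_nonneg _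
  linarith

lemma exists_corner (b : Bas (lat E)) {x0 : ι → UnitAddCircle} (h0 : Cos E x0) (ht : Tors x0)
    {M : ℕ} (hM : 0 < M) (r : ι → ℕ) :
    ∃ x, Cos E x ∧ Tors x ∧ ∀ i ∈ b.B, x i = -pt M (r i) :=
  exists_point b h0 ht (y := fun i => -pt M (r i)) hM fun i _ => by
    rw [smul_neg, nsmul_pt hM, neg_zero]

/-- the projection to the coordinates of the basis is injective -/
lemma orth_eq_zero (hE : Formal (FF ι d) E) (b : Bas (lat E)) (hd : b.B.card = d)
    {x0 : ι → UnitAddCircle} (h0 : Cos E x0) (ht : Tors x0) {h : ι → UnitAddCircle}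
    (hh : Orth (lat E) h) (hB : ∀ i ∈ b.B, h i = 0) : h = 0 := by
  classical
  have hD : ∀ i, b.D • h i = 0 := by
    intro i
    have := hh.tors b (Q := 1) (fun l hl => by rw [hB l hl, nsmul_zero]) i
    rwa [one_mul] at this
  set M : ℕ := b.B.card * b.D + b.B.card + 1 with hM
  obtain ⟨x, hx, htx, hxB⟩ := exists_corner b h0 ht (M := M) (by omega) (fun _ => 1)
  have hx' : Cos E (x + h) := hx.add hh
  have htx' : Tors (x + h) := by
    obtain ⟨m, hm, hmx⟩ := htx
    refine ⟨m * b.D, Nat.mul_pos hm b.D_pos, ?_⟩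
    funext i
    rw [Pi.smul_apply, Pi.add_apply, Pi.zero_apply, smul_add,
      nsmul_of_dvd (Dvd.intro _ rfl) (congrFun hmx i), nsmul_of_dvd (Dvd.intro_left _ rfl) (hD i),
      add_zero]
  have hxB' : ∀ i ∈ b.B, (x + h) i = -pt M 1 := by
    intro i hi
    rw [Pi.add_apply, hB i hi, add_zero, hxB i hi]
  have hMpos : (0 : ℝ) < M := by
    have : 0 < M := by omega
    exact_mod_cast this
  funext j
  by_cases hj : j ∈ b.B
  · exact hB j hj
  have hs : ∑ _i ∈ b.B, 1 < M := by
    rw [sum_const, smul_eq_mul, mul_one]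
    have := b.D_pos
    omega
  have h1 := small hE b hd hx htx (fun _ _ => one_pos) hs hxB hj
  have h2 := small hE b hd hx' htx' (fun _ _ => one_pos) hs hxB' hj
  rw [sum_const, smul_eq_mul, mul_one] at h1 h2
  have h3 : h j = ((fr ((x + h) j) - fr (x j) : ℝ) : UnitAddCircle) := by
    rw [AddCircle.coe_sub, coe_fr, coe_fr, Pi.add_apply]
    abel
  rw [Pi.zero_apply, h3]
  refine eq_zero_of_small b.D_pos (by rw [← h3]; exact hD j) ?_
  have h4 : |fr ((x + h) j) - fr (x j)| ≤ b.B.card / M := by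
    have := fr_nonneg (x j)
    have := fr_nonneg ((x + h) j)
    rw [abs_le]
    constructor <;> linarith
  have h5 : (b.B.card : ℝ) / M * b.D < 1 := by
    rw [div_mul_eq_mul_div, div_lt_one hMpos, hM]
    push_cast
    have : (0 : ℝ) ≤ b.B.card := Nat.cast_nonneg _
    linarith
  exact lt_of_le_of_lt (mul_le_mul_of_nonneg_right h4 (Nat.cast_nonneg _)) h5

/-- the relations with coefficient one -/
lemma exists_unit (hE : Formal (FF ι d) E) (b : Bas (lat E)) (hd : b.B.card = d)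
    {x0 : ι → UnitAddCircle} (h0 : Cos E x0) (ht : Tors x0) {j : ι} (hj : j ∉ b.B) :
    ∃ w ∈ lat E, (∀ i, i ∉ b.B → i ≠ j → w i = 0) ∧ w j = 1 := by
  classical
  set δ : ℤ := b.v j j with hδ
  have hδ0 : δ ≠ 0 := b.ne j hj
  have hpos : 0 < δ.natAbs := Int.natAbs_pos.mpr hδ0
  have hdvd : ∀ i, δ ∣ b.v j i := by
    intro i
    by_cases hi : i ∈ b.B
    swap
    · by_cases hij : i = j
      · rw [hij]
      · rw [b.supp j hj i hi hij]
        exact dvd_zero δ
    obtain ⟨h, h1, h2⟩ := exists_extend b.ind (fun l => if l = i then pt δ.natAbs 1 else 0)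
    have h3 : Orth (lat E) (δ.natAbs • h) := by
      intro v hv
      have h4 : ∑ l, v l • (δ.natAbs • h) l = δ.natAbs • ∑ l, v l • h l := by
        rw [smul_sum]
        exact sum_congr rfl fun l _ => by rw [Pi.smul_apply, smul_comm]
      rw [h4, h1 v hv, nsmul_zero]
    have h4 : δ.natAbs • h = 0 := by
      refine orth_eq_zero hE b hd h0 ht h3 fun l hl => ?_
      rw [Pi.smul_apply, h2 l hl]
      split_ifs
      · exact nsmul_pt hpos 1
      · rw [nsmul_zero]
    have h5 : δ • h j = 0 := QP.natAbs_nsmul_eq_zero.mp (congrFun h4 j)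
    have h6 := h1 _ (b.mem j hj)
    rw [sum_supp hj (b.supp j hj), ← hδ, h5, zero_add, sum_eq_single i] at h6
    · rw [h2 i hi, if_pos rfl, ← addOrderOf_dvd_iff_zsmul_eq_zero, addOrderOf_pt hpos] at h6
      exact Int.natAbs_dvd.mp h6
    · intro l hl hli
      rw [h2 l hl, if_neg hli, smul_zero]
    · intro h'
      exact absurd hi h'
  choose w hw using hdvd
  have hv : b.v j = δ • w := by
    funext i
    rw [hw i, Pi.smul_apply, smul_eq_mul]
  refine ⟨w, hE.sat w δ hδ0 (by rw [← hv]; exact b.mem j hj), fun i hi hij => ?_, ?_⟩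
  · have h1 := hw i
    rw [b.supp j hj i hi hij] at h1
    rcases mul_eq_zero.mp h1.symm with h | h
    · exact absurd h hδ0
    · exact h
  · have h1 := hw j
    rw [← hδ] at h1
    have h2 : δ * 1 = δ * w j := by rw [mul_one]; exact h1
    exact (mul_left_cancel₀ hδ0 h2).symm

lemma zsmul_pt (M : ℕ) (a : ℤ) (r : ℕ) :
    a • pt M r = (((a * r : ℤ) / M : ℝ) : UnitAddCircle) := by
  unfold pt
  rw [← AddCircle.coe_zsmul, zsmul_eq_mul]
  congr 1
  push_cast
  ring

/-- the constant of such a relation is zero, its coefficients are nonnegative -/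
lemma unit_nonneg (hE : Formal (FF ι d) E) (b : Bas (lat E)) (hd : b.B.card = d)
    {x0 : ι → UnitAddCircle} (h0 : Cos E x0) (ht : Tors x0) {j : ι} (hj : j ∉ b.B) {w : ι → ℤ}
    (hw : w ∈ lat E) (hs : ∀ i, i ∉ b.B → i ≠ j → w i = 0) (hwj : w j = 1) :
    (∀ x, Cos E x → ∑ i, w i • x i = 0) ∧ ∀ i ∈ b.B, 0 ≤ w i := by
  classical
  set σ : UnitAddCircle := ∑ i, w i • x0 i with hσ
  have hcorner : ∀ {M : ℕ} {r : ι → ℕ} {x : ι → UnitAddCircle}, Cos E x →
      (∀ i ∈ b.B, x i = -pt M (r i)) →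
      σ = x j - (((∑ i ∈ b.B, w i * r i : ℤ) / M : ℝ) : UnitAddCircle) := by
    intro M r x hx hxB
    have h1 := hx.pair_eq h0 hw
    rw [← hσ, sum_supp hj hs, hwj, one_smul] at h1
    rw [← h1, sub_eq_add_neg]
    congr 1
    rw [sum_congr rfl fun i hi => by rw [hxB i hi, smul_neg, zsmul_pt], sum_neg_distrib]
    congr 1
    have hco : ∀ (s : Finset ι) (f : ι → ℝ),
        ∑ i ∈ s, ((f i : ℝ) : UnitAddCircle) = ((∑ i ∈ s, f i : ℝ) : UnitAddCircle) := by
      intro s f
      induction s using Finset.induction_on with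
      | empty => rfl
      | insert a s ha ih => rw [sum_insert ha, sum_insert ha, ih, AddCircle.coe_add]
    rw [hco, ← sum_div]
    push_cast
    rfl
  -- the constant
  have hσ0 : σ = 0 := by
    obtain ⟨m, hm, hmx⟩ := ht
    have hmσ : m • σ = 0 := by
      rw [hσ, smul_sum]
      refine sum_eq_zero fun i _ => ?_
      have h1 : m • x0 i = 0 := congrFun hmx i
      rw [smul_comm, h1, smul_zero]
    set S : ℤ := ∑ i ∈ b.B, w i * ((1 : ℕ) : ℤ) with hS
    set M : ℕ := (b.B.card + S.natAbs) * m + b.B.card + 1 with hM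
    obtain ⟨x, hx, htx, hxB⟩ := exists_corner b h0 ⟨m, hm, hmx⟩ (M := M) (by omega) (fun _ => 1)
    have hs1 : ∑ _i ∈ b.B, 1 < M := by
      rw [sum_const, smul_eq_mul, mul_one]
      omega
    have h1 := small hE b hd hx htx (fun _ _ => one_pos) hs1 hxB hj
    rw [sum_const, smul_eq_mul, mul_one] at h1
    have h2 := hcorner hx hxB
    rw [← hS] at h2
    have h3 : σ = ((fr (x j) - S / M : ℝ) : UnitAddCircle) := by
      rw [AddCircle.coe_sub, coe_fr]
      exact h2
    rw [h3]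
    refine eq_zero_of_small hm (by rw [← h3]; exact hmσ) ?_
    have hMpos : (0 : ℝ) < M := by
      have : 0 < M := by omega
      exact_mod_cast this
    have h4 : |fr (x j) - S / M| ≤ (b.B.card + S.natAbs) / M := by
      have h5 : |(S : ℝ) / M| = S.natAbs / M := by
        rw [abs_div, abs_of_pos hMpos, Nat.cast_natAbs, Int.cast_abs]
      have h6 : |fr (x j)| ≤ b.B.card / M := by
        rw [abs_of_nonneg (fr_nonneg _)]
        exact h1
      calc |fr (x j) - S / M| ≤ |fr (x j)| + |(S : ℝ) / M| := abs_sub _ _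
        _ ≤ b.B.card / M + S.natAbs / M := add_le_add h6 h5.le
        _ = _ := by ring
    refine lt_of_le_of_lt (mul_le_mul_of_nonneg_right h4 (Nat.cast_nonneg _)) ?_
    rw [div_mul_eq_mul_div, div_lt_one hMpos, hM]
    push_cast
    have : (0 : ℝ) ≤ b.B.card := Nat.cast_nonneg _
    linarith
  refine ⟨fun x hx => by rw [hx.pair_eq h0 hw, ← hσ, hσ0], fun i0 hi0 => ?_⟩
  by_contra hneg
  push Not at hneg
  set A : ℕ := ∑ i, (w i).natAbs with hA
  set r : ι → ℕ := fun i => if i = i0 then A + 1 else 1 with hr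
  set S : ℤ := ∑ i ∈ b.B, w i * r i with hS
  have hS0 : S < 0 := by
    rw [hS, ← add_sum_erase _ _ hi0]
    have h1 : w i0 * r i0 ≤ -(A + 1 : ℕ) := by
      rw [hr]
      simp only [if_true]
      have : w i0 ≤ -1 := by omega
      nlinarith
    have h2 : ∑ i ∈ b.B.erase i0, w i * r i ≤ A := by
      have h3 : ∀ i ∈ b.B.erase i0, w i * r i ≤ (w i).natAbs := by
        intro i hi
        have : r i = 1 := if_neg (mem_erase.mp hi).1
        rw [this]
        push_cast
        rw [mul_one]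
        exact le_abs_self _
      refine (sum_le_sum h3).trans ?_
      rw [hA]
      push_cast
      refine sum_le_sum_of_subset_of_nonneg (subset_univ _) fun i _ _ => abs_nonneg _
    push_cast at h1
    linarith
  set R : ℕ := ∑ i ∈ b.B, r i with hR
  set M : ℕ := R + S.natAbs + 1 with hM
  obtain ⟨x, hx, htx, hxB⟩ := exists_corner b h0 ht (M := M) (by omega) r
  have h1 := small hE b hd hx htx (fun i _ => by
    rw [hr]
    simp only
    split_ifs <;> omega) (by omega) hxB hj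
  have h2 := hcorner hx hxB
  rw [hσ0, ← hS] at h2
  have h3 : x j = (((S : ℝ) / M : ℝ) : UnitAddCircle) := (sub_eq_zero.mp h2.symm)
  have hMpos : (0 : ℝ) < M := by
    have : 0 < M := by omega
    exact_mod_cast this
  have hSR : (S : ℝ) < 0 := by exact_mod_cast hS0
  have hSM : -(M : ℝ) < S := by
    have : -(M : ℤ) < S := by omega
    exact_mod_cast this
  have h4 : x j = ((1 + (S : ℝ) / M : ℝ) : UnitAddCircle) := by
    rw [AddCircle.coe_add, h3]
    have : ((1 : ℝ) : UnitAddCircle) = 0 := AddCircle.coe_period 1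
    rw [this, zero_add]
  have h5 : -1 < (S : ℝ) / M := by
    rw [lt_div_iff₀ hMpos]
    linarith
  have h6 : (S : ℝ) / M < 0 := div_neg_of_neg_of_pos hSR hMpos
  rw [h4, fr_coe (by linarith) (by linarith)] at h1
  have h7 : (M : ℝ) + S ≤ R := by
    have h8 := mul_le_mul_of_nonneg_right h1 hMpos.le
    rw [add_mul, div_mul_cancel₀ _ hMpos.ne', div_mul_cancel₀ _ hMpos.ne', one_mul] at h8
    exact h8
  have h8 : (M : ℤ) + S ≤ R := by exact_mod_cast h7
  omega

/-- **The cosets of maximal dimension consist of unions of blocks.** -/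
theorem block_of_formal (hE : Formal (FF ι d) E) (b : Bas (lat E)) (hd : b.B.card = d)
    {x0 : ι → UnitAddCircle} (h0 : Cos E x0) (ht : Tors x0) :
    ∃ β : ι → ι, (∀ j, j ∉ b.B → β j = j) ∧ (∀ i, β i ∉ b.B) ∧
      ∀ [DecidableEq ι], ∀ x, Cos E x → ∀ j, j ∉ b.B → ∑ i with β i = j, x i = 0 := by
  classical
  have hex : ∀ j, ∃ w : ι → ℤ, j ∉ b.B → w ∈ lat E ∧ (∀ i, i ∉ b.B → i ≠ j → w i = 0) ∧ w j = 1 ∧
      (∀ x, Cos E x → ∑ i, w i • x i = 0) ∧ ∀ i ∈ b.B, 0 ≤ w i := by
    intro j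
    by_cases hj : j ∈ b.B
    · exact ⟨0, fun h => absurd hj h⟩
    · obtain ⟨w, h1, h2, h3⟩ := exists_unit hE b hd h0 ht hj
      obtain ⟨h4, h5⟩ := unit_nonneg hE b hd h0 ht hj h1 h2 h3
      exact ⟨w, fun _ => ⟨h1, h2, h3, h4, h5⟩⟩
  choose w hw using hex
  -- the sums
  have hsum : ∀ i ∈ b.B, ∑ j ∈ b.Bᶜ, w j i = 1 := by
    intro i0 hi0
    set s : ℤ := 1 - ∑ j ∈ b.Bᶜ, w j i0 with hs
    obtain ⟨x, hx, htx, hxB⟩ := exists_point b h0 ht
      (y := fun l => if l = i0 then pt (s.natAbs + 1) 1 else 0) (Q := s.natAbs + 1)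
      (Nat.succ_pos _) (fun l _ => by
        split_ifs
        · exact nsmul_pt (Nat.succ_pos _) 1
        · rw [nsmul_zero])
    have h1 := (hE.mem hx htx).1
    rw [← sum_add_sum_compl b.B] at h1
    have h2 : ∑ i ∈ b.B, x i = pt (s.natAbs + 1) 1 := by
      rw [sum_eq_single i0]
      · rw [hxB i0 hi0, if_pos rfl]
      · intro l hl hli
        rw [hxB l hl, if_neg hli]
      · intro h
        exact absurd hi0 h
    have h3 : ∑ j ∈ b.Bᶜ, x j = -((∑ j ∈ b.Bᶜ, w j i0) • pt (s.natAbs + 1) 1) := by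
      rw [sum_smul, ← sum_neg_distrib]
      refine sum_congr rfl fun j hj => ?_
      rw [mem_compl] at hj
      obtain ⟨-, hw2, hw3, hw4, -⟩ := hw j hj
      have h4 := hw4 x hx
      rw [sum_supp hj hw2, hw3, one_smul, sum_eq_single i0] at h4
      · rw [hxB i0 hi0, if_pos rfl] at h4
        exact eq_neg_of_add_eq_zero_left h4
      · intro l hl hli
        rw [hxB l hl, if_neg hli, smul_zero]
      · intro h
        exact absurd hi0 h
    have h4 : s • pt (s.natAbs + 1) 1 = 0 := by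
      rw [hs, sub_smul, one_smul, sub_eq_add_neg, ← h3, ← h2]
      exact h1
    rw [← addOrderOf_dvd_iff_zsmul_eq_zero, addOrderOf_pt (Nat.succ_pos _)] at h4
    have h5 : s = 0 := by
      by_contra hne
      have h6 := Int.natAbs_dvd_natAbs.mpr h4
      have h7 := Nat.le_of_dvd (Int.natAbs_pos.mpr hne) h6
      rw [Int.natAbs_natCast] at h7
      omega
    omega
  -- the block of an element of the basis
  have hβ : ∀ i, ∃ j, i ∈ b.B → j ∉ b.B ∧ w j i = 1 ∧ ∀ l, l ∉ b.B → l ≠ j → w l i = 0 := by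
    intro i
    by_cases hi : i ∈ b.B
    swap
    · exact ⟨i, fun h => absurd h hi⟩
    have h1 := hsum i hi
    have hnn : ∀ l ∈ b.Bᶜ, 0 ≤ w l i := fun l hl => (hw l (mem_compl.mp hl)).2.2.2.2 i hi
    have h2 : ∃ j ∈ b.Bᶜ, 0 < w j i := by
      by_contra hcon
      push Not at hcon
      have h3 : ∑ j ∈ b.Bᶜ, w j i = 0 := sum_eq_zero fun j hj => le_antisymm (hcon j hj) (hnn j hj)
      omega
    obtain ⟨j, hj, hj0⟩ := h2
    have h3 := add_sum_erase b.Bᶜ (fun l => w l i) hj
    have h4 : ∀ l ∈ b.Bᶜ.erase j, 0 ≤ w l i := fun l hl => hnn l (mem_of_mem_erase hl)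
    have h5 := sum_nonneg h4
    have h6 : w j i = 1 := by omega
    have h7 : ∑ l ∈ b.Bᶜ.erase j, w l i = 0 := by omega
    refine ⟨j, fun _ => ⟨mem_compl.mp hj, h6, fun l hl hlj => ?_⟩⟩
    exact (sum_eq_zero_iff_of_nonneg h4).mp h7 l (mem_erase.mpr ⟨hlj, mem_compl.mpr hl⟩)
  choose β hβ using hβ
  refine ⟨fun i => if i ∈ b.B then β i else i, fun j hj => if_neg hj, fun i => ?_, ?_⟩
  · simp only
    split_ifs with h
    · exact (hβ i h).1
    · exact h
  · intro _ x hx j hj
    obtain ⟨-, hw2, hw3, hw4, -⟩ := hw j hj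
    rw [← hw4 x hx, sum_filter]
    refine sum_congr rfl fun i _ => ?_
    by_cases hi : i ∈ b.B
    · obtain ⟨h1, h2, h3⟩ := hβ i hi
      simp only [if_pos hi]
      split_ifs with h
      · rw [← h, h2, one_smul]
      · rw [h3 j hj (Ne.symm h), zero_smul]
    · simp only [if_neg hi]
      split_ifs with h
      · rw [h, hw3, one_smul]
      · rw [hw2 i hi h, zero_smul]

end

end Pool.Agent.Q59.GH
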