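import Pool.Agent.Q59.GH.Dens
import Pool.Agent.Q59.QP.Good

/-!
# Torsion points whose conjugates lie in a closed set: a finite union of torsion cosets
-/

namespace Pool.Agent.Q59.GH

open Finset Filter Topology
open Pool.Agent.Q59.QP

/-- finite systems of equations -/
abbrev Eqs (ι : Type*) := Finset ((ι → ℤ) × UnitAddCircle)

section

variable {ι : Type*} [Fintype ι]

/-- the solutions of a system -/
def Cos (E : Eqs ι) (x : ι → UnitAddCircle) : Prop := ∀ p ∈ E, ∑ i, p.1 i • x i = p.2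

/-- the torsion points -/
def Tors (x : ι → UnitAddCircle) : Prop := ∃ m : ℕ, 0 < m ∧ m • x = 0

/-- the torsion points with all conjugates in `F` -/
def Gal (F : Set (ι → UnitAddCircle)) (x : ι → UnitAddCircle) : Prop :=
  ∃ m : ℕ, 0 < m ∧ m • x = 0 ∧ ∀ t : ℕ, t.Coprime m → t • x ∈ F

/-- the lattice of a system -/
def lat (E : Eqs ι) : Submodule ℤ (ι → ℤ) := Submodule.span ℤ (Prod.fst '' (E : Set ((ι → ℤ) × UnitAddCircle)))

/-- the systems whose torsion solutions have all conjugates in `F` -/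
structure Formal (F : Set (ι → UnitAddCircle)) (E : Eqs ι) : Prop where
  /-- the lattice is saturated -/
  sat : ∀ (v : ι → ℤ) (k : ℤ), k ≠ 0 → k • v ∈ lat E → v ∈ lat E
  /-- the right hand sides are torsion points -/
  tors : ∀ p ∈ E, ∃ q : ℕ, 0 < q ∧ q • p.2 = 0
  /-- the solutions -/
  gal : ∀ x, Cos E x → Tors x → Gal F x

omit [Fintype ι] in
lemma Gal.tors {F : Set (ι → UnitAddCircle)} {x : ι → UnitAddCircle} (h : Gal F x) : Tors x := by
  obtain ⟨m, hm, h1, -⟩ := h
  exact ⟨m, hm, h1⟩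

omit [Fintype ι] in
lemma Gal.all {F : Set (ι → UnitAddCircle)} {x : ι → UnitAddCircle} (h : Gal F x) {m : ℕ}
    (hm : 0 < m) (hmx : m • x = 0) {t : ℕ} (ht : t.Coprime m) : t • x ∈ F := by
  obtain ⟨m', hm', h1, h2⟩ := h
  obtain ⟨t', h3, h4⟩ := exists_lift m' hm hm' ht
  have h5 : t • x = t' • x := by
    funext i
    rw [Pi.smul_apply, Pi.smul_apply]
    exact (smul_congr (by rw [← Pi.smul_apply, hmx, Pi.zero_apply]) h3).symm
  rw [h5]
  exact h2 t' h4

variable (𝒰 : Ultrafilter ℕ)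

/-- the relations which hold up to bounded torsion -/
def Lam (x : ℕ → ι → UnitAddCircle) : Submodule ℤ (ι → ℤ) where
  carrier := {v | Tor 𝒰 (fun n => ∑ i, v i • x n i)}
  add_mem' := by
    intro v w hv hw
    refine (hv.add hw).congr (Eventually.of_forall fun n => ?_)
    simp only [Pi.add_apply, add_smul, sum_add_distrib]
  zero_mem' := ⟨1, one_pos, Eventually.of_forall fun n => by simp⟩
  smul_mem' := by
    intro k v hv
    refine (hv.zsmul k).congr (Eventually.of_forall fun n => ?_)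
    simp only [Pi.smul_apply, smul_eq_mul, mul_smul, smul_sum]

variable {𝒰}

/-- **The limit coset.** -/
theorem exists_coset {F : Set (ι → UnitAddCircle)} (hF : IsClosed F) (x : ℕ → ι → UnitAddCircle)
    (hx : ∀ n, Gal F (x n)) :
    ∃ E : Eqs ι, Formal F E ∧ ∀ᶠ n in (𝒰 : Filter ℕ), Cos E (x n) := by
  classical
  choose m hm hmx hgal using hx
  obtain ⟨G, hG⟩ := (IsNoetherian.noetherian (Lam 𝒰 x) : (Lam 𝒰 x).FG)
  have hGmem : ∀ v ∈ G, Tor 𝒰 (fun n => ∑ i, v i • x n i) := by
    intro v hv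
    have h1 : v ∈ Lam 𝒰 x := by
      rw [← hG]
      exact Submodule.subset_span hv
    exact h1
  have hσ : ∀ v : ι → ℤ, ∃ σ : UnitAddCircle, v ∈ G → (∃ q : ℕ, 0 < q ∧ q • σ = 0) ∧
      ∀ᶠ n in (𝒰 : Filter ℕ), ∑ i, v i • x n i = σ := by
    intro v
    by_cases hv : v ∈ G
    · obtain ⟨σ, h1, h2⟩ := tor_const (hGmem v hv)
      exact ⟨σ, fun _ => ⟨h1, h2⟩⟩
    · exact ⟨0, fun h => absurd h hv⟩
  choose σ hσ using hσ
  set E : Eqs ι := G.image fun v => (v, σ v) with hE
  have hlat : lat E = Lam 𝒰 x := by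
    unfold lat
    rw [← hG, hE]
    congr 1
    ext v
    simp
  have hev : ∀ᶠ n in (𝒰 : Filter ℕ), Cos E (x n) := by
    have h1 : ∀ᶠ n in (𝒰 : Filter ℕ), ∀ v ∈ G, ∑ i, v i • x n i = σ v := by
      rw [Filter.eventually_all_finset]
      exact fun v hv => (hσ v hv).2
    filter_upwards [h1] with n hn p hp
    rw [hE, mem_image] at hp
    obtain ⟨v, hv, rfl⟩ := hp
    exact hn v hv
  refine ⟨E, ⟨?_, ?_, ?_⟩, hev⟩
  · intro v k hk h
    rw [hlat] at h ⊢
    have h1 : Tor 𝒰 (fun n => ∑ i, (k • v) i • x n i) := h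
    refine Tor.of_zsmul hk (h1.congr (Eventually.of_forall fun n => ?_))
    simp only [Pi.smul_apply, smul_eq_mul, mul_smul, smul_sum]
  · intro p hp
    rw [hE, mem_image] at hp
    obtain ⟨v, hv, rfl⟩ := hp
    exact (hσ v hv).1
  · intro b hb ⟨M, hM, hMb⟩
    refine ⟨M, hM, hMb, fun t ht => ?_⟩
    have hmxi : ∀ n i, m n • x n i = 0 := fun n i => congrFun (hmx n) i
    have hMbi : ∀ i, M • b i = 0 := fun i => congrFun hMb i
    -- the relations
    have hrel : ∀ v ∈ Lam 𝒰 x, ∀ᶠ n in (𝒰 : Filter ℕ), ∑ i, v i • x n i = ∑ i, v i • b i := by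
      intro v hv
      rw [← hlat] at hv
      unfold lat at hv
      filter_upwards [hev] with n hn
      induction hv using Submodule.span_induction with
      | mem v hv =>
        obtain ⟨p, hp, rfl⟩ := hv
        rw [hn p hp, hb p hp]
      | zero => simp
      | add v w _ _ h1 h2 => simp only [Pi.add_apply, add_smul, sum_add_distrib, h1, h2]
      | smul k v _ h1 => simp only [Pi.smul_apply, smul_eq_mul, mul_smul, ← smul_sum, h1]
    -- the multipliers
    have hlift : ∀ n, ∃ t' : ℕ, t' ≡ t [MOD M] ∧ t'.Coprime (m n * M) := fun n =>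
      exists_lift (m n * M) hM (Nat.mul_pos (hm n) hM) ht
    choose tn htn1 htn2 using hlift
    have hbt : ∀ n, tn n • b = t • b := by
      intro n
      funext i
      exact smul_congr (z := b i) (by rw [← Pi.smul_apply, hMb, Pi.zero_apply]) (htn1 n)
    by_contra hcon
    have hmM : ∀ n, 0 < m n * M := fun n => Nat.mul_pos (hm n) hM
    have h1 := dense (𝒰 := 𝒰) (m := fun n => m n * M) (L := M) hmM (fun n => Dvd.intro_left _ rfl)
      (x := fun n => tn n • x n) (fun n i => by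
        change (m n * M) • (tn n • x n i) = 0
        rw [smul_comm, mul_comm, mul_nsmul', hmxi, nsmul_zero, nsmul_zero]) (b := t • b) (fun i => by
        change M • (t • b i) = 0
        rw [smul_comm, hMbi, nsmul_zero]) (fun v hv => by
        have hv' : v ∈ Lam 𝒰 x := by
          obtain ⟨q, hq, h2⟩ := hv
          refine ⟨q, hq, ?_⟩
          filter_upwards [h2] with n hn
          have h3 : (tn n) • (q • ∑ i, v i • x n i) = 0 := by
            rw [← hn, smul_comm, smul_sum]
            congr 1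
            refine sum_congr rfl fun i _ => ?_
            rw [Pi.smul_apply, smul_comm]
          have h4 : m n • (q • ∑ i, v i • x n i) = 0 := by
            rw [smul_comm, smul_sum]
            rw [sum_eq_zero fun i _ => ?_, nsmul_zero]
            rw [smul_comm, hmxi, smul_zero]
          have h5 := addOrderOf_dvd_of_nsmul_eq_zero h3
          have h6 := addOrderOf_dvd_of_nsmul_eq_zero h4
          have h7 := Nat.dvd_gcd h5 h6
          rw [(htn2 n).coprime_mul_right_right] at h7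
          exact AddMonoid.addOrderOf_eq_one_iff.mp (Nat.dvd_one.mp h7)
        filter_upwards [hrel v hv'] with n hn
        have h3 : ∑ i, v i • (tn n • x n) i = tn n • ∑ i, v i • x n i := by
          rw [smul_sum]
          exact sum_congr rfl fun i _ => by rw [Pi.smul_apply, smul_comm]
        have h4 : ∑ i, v i • (t • b) i = tn n • ∑ i, v i • b i := by
          rw [smul_sum, ← hbt n]
          exact sum_congr rfl fun i _ => by rw [Pi.smul_apply, smul_comm]
        rw [h3, h4, hn]) (V := Fᶜ) hF.isOpen_compl hcon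
    obtain ⟨n, t', ht', h2⟩ := h1.exists
    apply h2
    rw [← mul_smul]
    refine hgal n _ ?_
    exact Nat.Coprime.mul_left (mem_T.mp ht').2.1.coprime_mul_right_right
      (htn2 n).coprime_mul_right_right

/-- bounded systems -/
def Bounded (H : ℕ) (E : Eqs ι) : Prop :=
  ∀ p ∈ E, (∀ i, (p.1 i).natAbs ≤ H) ∧ H.factorial • p.2 = 0

omit [Fintype ι] in
lemma exists_bounded [Finite ι] {E : Eqs ι} (hE : ∀ p ∈ E, ∃ q : ℕ, 0 < q ∧ q • p.2 = 0) :
    ∃ H0 : ℕ, ∀ H, H0 ≤ H → Bounded H E := by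
  classical
  have : Fintype ι := Fintype.ofFinite ι
  have hq : ∀ p : (ι → ℤ) × UnitAddCircle, ∃ q : ℕ, p ∈ E → 0 < q ∧ q • p.2 = 0 := by
    intro p
    by_cases hp : p ∈ E
    · obtain ⟨q, h1, h2⟩ := hE p hp
      exact ⟨q, fun _ => ⟨h1, h2⟩⟩
    · exact ⟨0, fun h => absurd h hp⟩
  choose q hq using hq
  refine ⟨∑ p ∈ E, (q p + ∑ i, (p.1 i).natAbs), fun H hH p hp => ?_⟩
  have h1 : q p + ∑ i, (p.1 i).natAbs ≤ H :=
    (single_le_sum (f := fun p => q p + ∑ i, (p.1 i).natAbs) (fun _ _ => Nat.zero_le _) hp).trans hH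
  refine ⟨fun i => ?_, ?_⟩
  · have h2 := single_le_sum (f := fun i => (p.1 i).natAbs) (fun _ _ => Nat.zero_le _) (mem_univ i)
    omega
  · obtain ⟨h3, h4⟩ := hq p hp
    obtain ⟨d, hd⟩ := Nat.dvd_factorial h3 (show q p ≤ H by omega)
    rw [hd, mul_comm, mul_nsmul', h4, nsmul_zero]

lemma finite_bounded (ι : Type*) [Fintype ι] (H : ℕ) : {E : Eqs ι | Bounded H E}.Finite := by
  classical
  have h1 : {z : ℤ | z.natAbs ≤ H}.Finite := by
    refine (Set.finite_Icc (-(H : ℤ)) H).subset fun z hz => ?_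
    have : z.natAbs ≤ H := hz
    constructor <;> omega
  have h2 : {z : UnitAddCircle | H.factorial • z = 0}.Finite := by
    refine (tm H.factorial).finite_toSet.subset fun z hz => ?_
    exact (mem_tm H.factorial_pos).mpr hz
  have h3 : {p : (ι → ℤ) × UnitAddCircle | (∀ i, (p.1 i).natAbs ≤ H) ∧ H.factorial • p.2 = 0}.Finite := by
    refine ((Set.Finite.pi' (t := fun _ : ι => {z : ℤ | z.natAbs ≤ H}) fun _ => h1).prod h2).subset ?_
    rintro ⟨v, z⟩ ⟨hv, hz⟩
    exact ⟨hv, hz⟩
  refine (h3.toFinset.powerset.finite_toSet).subset fun E hE => ?_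
  rw [mem_coe, mem_powerset]
  intro p hp
  rw [Set.Finite.mem_toFinset]
  exact hE p hp

/-- **Torsion points with all conjugates in a closed set.** -/
theorem exists_finite {F : Set (ι → UnitAddCircle)} (hF : IsClosed F) :
    ∃ W : Set (Eqs ι), W.Finite ∧ (∀ E ∈ W, Formal F E) ∧
      ∀ x, Tors x → (Gal F x ↔ ∃ E ∈ W, Cos E x) := by
  have key : ∃ H : ℕ, ∀ x : ι → UnitAddCircle, Gal F x → ∃ E : Eqs ι, Formal F E ∧ Bounded H E ∧
      Cos E x := by
    by_contra hcon
    push Not at hcon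
    choose x hx hno using hcon
    obtain ⟨E, hE, hev⟩ := exists_coset (𝒰 := hyperfilter ℕ) hF x hx
    obtain ⟨H0, hH0⟩ := exists_bounded hE.tors
    have h1 : ∀ᶠ n in (hyperfilter ℕ : Filter ℕ), H0 ≤ n :=
      Filter.Eventually.filter_mono (by
        rw [← Nat.cofinite_eq_atTop]
        exact hyperfilter_le_cofinite) (eventually_ge_atTop H0)
    obtain ⟨n, hn1, hn2⟩ := (hev.and h1).exists
    exact hno n E hE (hH0 n hn2) hn1
  obtain ⟨H, hH⟩ := key
  refine ⟨{E | Formal F E ∧ Bounded H E}, (finite_bounded ι H).subset fun E hE => hE.2,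
    fun E hE => hE.1, fun x hx => ⟨fun h => ?_, ?_⟩⟩
  · obtain ⟨E, h1, h2, h3⟩ := hH x h
    exact ⟨E, ⟨h1, h2⟩, h3⟩
  · rintro ⟨E, hE, hEx⟩
    exact hE.1.gal x hEx hx

/-- the solutions are affine -/
lemma Cos.aff (E : Eqs ι) : Aff {x | Cos E x} := ⟨(E : Set _), rfl⟩

end

end Pool.Agent.Q59.GH
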