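import Pool.Agent.Q59.GH.Block
import Pool.Agent.Q59.QP.Match

/-!
# The number of the unions of blocks
-/

namespace Pool.Agent.Q59.GH

open Finset
open Pool.Agent.Q59.QP

/-- a union of conditions with small overlaps -/
lemma union_bounds {α β : Type*} (M : Finset α) (X : Finset β) (S : α → β → Prop)
    [∀ a, DecidablePred (S a)] [DecidablePred fun x => ∃ a ∈ M, S a x] {U I : ℕ}
    (hU : ∀ a ∈ M, (X.filter (S a)).card ≤ U)
    (hI : ∀ a ∈ M, ∀ b ∈ M, a ≠ b → (X.filter fun x => S a x ∧ S b x).card ≤ I) :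
    (X.filter fun x => ∃ a ∈ M, S a x).card ≤ M.card * U ∧
      ∑ a ∈ M, (X.filter (S a)).card ≤ (X.filter fun x => ∃ a ∈ M, S a x).card + M.card ^ 2 * I := by
  classical
  constructor
  · have h1 : (X.filter fun x => ∃ a ∈ M, S a x) ⊆ M.biUnion fun a => X.filter (S a) := by
      intro x hx
      obtain ⟨h1, a, ha, h2⟩ := mem_filter.mp hx
      exact mem_biUnion.mpr ⟨a, ha, mem_filter.mpr ⟨h1, h2⟩⟩
    refine (card_le_card h1).trans (card_biUnion_le.trans ?_)
    rw [← smul_eq_mul, ← sum_const]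
    exact sum_le_sum hU
  · have h2 : ∑ a ∈ M, (X.filter (S a)).card = ∑ x ∈ X, (M.filter fun a => S a x).card := by
      simp only [card_filter]
      exact sum_comm
    have h3 : ∀ x ∈ X, (M.filter fun a => S a x).card ≤
        (if ∃ a ∈ M, S a x then 1 else 0) + (M.filter fun a => S a x).offDiag.card := by
      intro x _
      rw [offDiag_card]
      by_cases hx : ∃ a ∈ M, S a x
      · rw [if_pos hx]
        set μ := (M.filter fun a => S a x).card
        rcases Nat.lt_or_ge μ 2 with h | h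
        · omega
        · have : 2 * μ ≤ μ * μ := Nat.mul_le_mul_right μ h
          omega
      · have h4 : (M.filter fun a => S a x) = ∅ := by
          rw [filter_eq_empty_iff]
          exact fun a ha h => hx ⟨a, ha, h⟩
        rw [h4, card_empty]
        exact Nat.zero_le _
    have h4 : ∑ x ∈ X, (if ∃ a ∈ M, S a x then 1 else 0) =
        (X.filter fun x => ∃ a ∈ M, S a x).card := by
      rw [card_filter]
    have h5 : ∑ x ∈ X, (M.filter fun a => S a x).offDiag.card ≤ M.card ^ 2 * I := by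
      have h6 : ∀ x, (M.filter fun a => S a x).offDiag =
          M.offDiag.filter fun p => S p.1 x ∧ S p.2 x := by
        intro x
        ext ⟨p, q⟩
        simp only [mem_offDiag, mem_filter]
        tauto
      have h7 : ∑ x ∈ X, (M.filter fun a => S a x).offDiag.card =
          ∑ p ∈ M.offDiag, (X.filter fun x => S p.1 x ∧ S p.2 x).card := by
        simp only [h6]
        simp only [card_filter]
        exact sum_comm
      rw [h7]
      have h8 : M.offDiag.card ≤ M.card ^ 2 := by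
        rw [offDiag_card, sq]
        exact Nat.sub_le _ _
      refine le_trans (sum_le_sum (g := fun _ => I) fun p hp => ?_) ?_
      · obtain ⟨hp1, hp2, hp3⟩ := mem_offDiag.mp hp
        exact hI _ hp1 _ hp2 hp3
      · rw [sum_const, smul_eq_mul]
        exact Nat.mul_le_mul_right _ h8
    calc ∑ a ∈ M, (X.filter (S a)).card = ∑ x ∈ X, (M.filter fun a => S a x).card := h2
      _ ≤ ∑ x ∈ X, ((if ∃ a ∈ M, S a x then 1 else 0) + (M.filter fun a => S a x).offDiag.card) :=
          sum_le_sum h3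
      _ = (X.filter fun x => ∃ a ∈ M, S a x).card +
            ∑ x ∈ X, (M.filter fun a => S a x).offDiag.card := by
          rw [sum_add_distrib, h4]
      _ ≤ _ := Nat.add_le_add_left h5 _

section

variable {ι : Type*} [Fintype ι] [DecidableEq ι]

/-- the set partitions in `r` blocks with at least two elements each -/
def BP (ι : Type*) [Fintype ι] [DecidableEq ι] (r : ℕ) : Finset (Finpartition (univ : Finset ι)) :=
  univ.filter fun P => P.parts.card = r ∧ ∀ β ∈ P.parts, 2 ≤ β.card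

/-- the tuples with sum zero on every block -/
def Bl (P : Finpartition (univ : Finset ι)) (x : ι → UnitAddCircle) : Prop :=
  ∀ β ∈ P.parts, ∑ i ∈ β, x i = 0

/-- a choice of representatives of the blocks -/
def IsRep (P : Finpartition (univ : Finset ι)) (ρ : Finset ι → ι) : Prop :=
  ∀ β ∈ P.parts, ρ β ∈ β

/-- the other elements -/
def SS (P : Finpartition (univ : Finset ι)) (ρ : Finset ι → ι) : Finset ι :=
  (P.parts.image ρ)ᶜ

variable {P : Finpartition (univ : Finset ι)} {ρ : Finset ι → ι}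

lemma IsRep.inj (hρ : IsRep P ρ) {β β' : Finset ι} (hβ : β ∈ P.parts) (hβ' : β' ∈ P.parts)
    (h : ρ β ∈ β') : β = β' := P.eq_of_mem_parts hβ hβ' (hρ β hβ) h

lemma card_SS (hρ : IsRep P ρ) : (SS P ρ).card = Fintype.card ι - P.parts.card := by
  unfold SS
  rw [card_compl, card_image_of_injOn]
  intro β hβ β' hβ' h
  refine hρ.inj hβ hβ' ?_
  rw [h]
  exact hρ β' hβ'

lemma mem_SS_of_ne (hρ : IsRep P ρ) {β : Finset ι} (hβ : β ∈ P.parts) {i : ι} (hi : i ∈ β)
    (hne : i ≠ ρ β) : i ∈ SS P ρ := by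
  unfold SS
  rw [mem_compl, mem_image]
  rintro ⟨β', hβ', rfl⟩
  have := hρ.inj hβ' hβ hi
  exact hne (by rw [this])

lemma exists_block (P : Finpartition (univ : Finset ι)) (i : ι) : ∃ β ∈ P.parts, i ∈ β :=
  P.exists_mem (mem_univ i)

lemma eq_zero_of_SS (hρ : IsRep P ρ) {z : ι → UnitAddCircle} (hz : Bl P z) {β : Finset ι}
    (hβ : β ∈ P.parts) (h : ∀ i ∈ β, i ≠ ρ β → z i = 0) (i : ι) (hi : i ∈ β) : z i = 0 := by
  by_cases hne : i = ρ β
  · have h1 := hz β hβ
    rw [← add_sum_erase _ _ hi, sum_eq_zero fun l hl => ?_, add_zero] at h1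
    · exact h1
    · obtain ⟨h2, h3⟩ := mem_erase.mp hl
      exact h l h3 (by rw [← hne]; exact h2)
  · exact h i hi hne

lemma Bl.sub {x y : ι → UnitAddCircle} (hx : Bl P x) (hy : Bl P y) : Bl P (x - y) := by
  intro β hβ
  simp only [Pi.sub_apply, sum_sub_distrib]
  rw [hx β hβ, hy β hβ, sub_zero]

variable {m : ℕ}

variable [Nonempty ι]

omit [Nonempty ι] in
lemma exists_rep' (P : Finpartition (univ : Finset ι)) {β0 : Finset ι} (hβ0 : β0 ∈ P.parts) {i0 : ι}
    (hi0 : i0 ∈ β0) : ∃ ρ, IsRep P ρ ∧ ρ β0 = i0 := by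
  have hex : ∀ β : Finset ι, ∃ i, (β ∈ P.parts → i ∈ β) ∧ (β = β0 → i = i0) := by
    intro β
    by_cases h0 : β = β0
    · exact ⟨i0, fun _ => by rw [h0]; exact hi0, fun _ => rfl⟩
    · by_cases hβ : β ∈ P.parts
      · obtain ⟨i, hi⟩ := P.nonempty_of_mem_parts hβ
        exact ⟨i, fun _ => hi, fun h => absurd h h0⟩
      · exact ⟨i0, fun h => absurd h hβ, fun h => absurd h h0⟩
  choose ρ hρ using hex
  exact ⟨ρ, fun β hβ => (hρ β).1 hβ, (hρ β0).2 rfl⟩

lemma exists_rep (P : Finpartition (univ : Finset ι)) : ∃ ρ, IsRep P ρ := by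
  obtain ⟨i⟩ := (inferInstance : Nonempty ι)
  obtain ⟨β, hβ, hi⟩ := exists_block P i
  obtain ⟨ρ, h, -⟩ := exists_rep' P hβ hi
  exact ⟨ρ, h⟩

omit [Nonempty ι] in
/-- a bound through a set of coordinates -/
lemma card_le_of_zero {S : Finset ι} (hm : 0 < m) {Q : (ι → UnitAddCircle) → Prop}
    [DecidablePred Q] (hsub : ∀ x y, Q x → Q y → Q (x - y))
    (h : ∀ z, Q z → (∀ i ∈ S, z i = 0) → z = 0) : ((TT ι m).filter Q).card ≤ m ^ S.card :=
  card_le_pow _ hm fun x y hx hy hxy => sub_eq_zero.mp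
    (h _ (hsub x y hx hy) fun i hi => by rw [Pi.sub_apply, hxy i hi, sub_self])

lemma card_Bl_le (hm : 0 < m) (P : Finpartition (univ : Finset ι)) [DecidablePred (Bl P)] :
    ((TT ι m).filter (Bl P)).card ≤ m ^ (Fintype.card ι - P.parts.card) := by
  obtain ⟨ρ, hρ⟩ := exists_rep P
  rw [← card_SS hρ]
  refine card_le_of_zero hm (fun x y hx hy => hx.sub hy) fun z hz h => ?_
  funext i
  obtain ⟨β, hβ, hi⟩ := exists_block P i
  exact eq_zero_of_SS hρ hz hβ (fun l hl hne => h l (mem_SS_of_ne hρ hβ hl hne)) i hi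

lemma le_card_Bl (hm : 0 < m) (P : Finpartition (univ : Finset ι)) [DecidablePred (Bl P)] :
    m ^ (Fintype.card ι - P.parts.card) ≤ ((TT ι m).filter (Bl P)).card := by
  classical
  obtain ⟨ρ, hρ⟩ := exists_rep P
  rw [← card_SS hρ]
  have h1 : (Fintype.piFinset fun _ : SS P ρ => tm m).card = m ^ (SS P ρ).card := by
    rw [Fintype.card_piFinset, prod_const, card_tm hm, card_univ, Fintype.card_coe]
  rw [← h1]
  set g : (SS P ρ → UnitAddCircle) → ι → UnitAddCircle := fun y i =>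
    if h : i ∈ SS P ρ then y ⟨i, h⟩ else 0 with hg
  refine card_le_card_of_injOn
    (fun y i => if i ∈ SS P ρ then g y i else -∑ l ∈ (P.part i).erase i, g y l) ?_ ?_
  · intro y hy
    have hy' := Fintype.mem_piFinset.mp hy
    have hgm : ∀ i, m • g y i = 0 := by
      intro i
      rw [hg]
      simp only
      split_ifs with h
      · exact (mem_tm hm).mp (hy' _)
      · exact nsmul_zero m
    refine mem_filter.mpr ⟨(mem_TT hm).mpr fun i => ?_, fun β hβ => ?_⟩
    · by_cases h : i ∈ SS P ρ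
      · simp only [if_pos h]
        exact hgm i
      · simp only [if_neg h]
        rw [smul_neg, smul_sum, sum_eq_zero fun l _ => hgm l, neg_zero]
    · have hmem : ρ β ∈ β := hρ β hβ
      have hns : ρ β ∉ SS P ρ := by
        unfold SS
        rw [mem_compl, not_not]
        exact mem_image_of_mem ρ hβ
      rw [← add_sum_erase _ _ hmem]
      simp only [if_neg hns]
      rw [P.part_eq_of_mem hβ hmem, neg_add_eq_zero]
      refine sum_congr rfl fun l hl => ?_
      obtain ⟨h2, h3⟩ := mem_erase.mp hl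
      rw [if_pos (mem_SS_of_ne hρ hβ h3 h2)]
  · intro y _ y' _ hyy
    funext ⟨i, hi⟩
    have h4 := congrFun hyy i
    simp only [if_pos hi, hg, dif_pos hi] at h4
    exact h4

omit [Nonempty ι] in
/-- the coordinate hyperplanes -/
lemma card_Bl_zero_le (hm : 0 < m) {P : Finpartition (univ : Finset ι)} {i0 : ι}
    (h2 : ∀ β ∈ P.parts, 2 ≤ β.card) [DecidablePred fun x => Bl P x ∧ x i0 = 0] :
    ((TT ι m).filter fun x => Bl P x ∧ x i0 = 0).card ≤
      m ^ (Fintype.card ι - P.parts.card - 1) := by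
  obtain ⟨β0, hβ0, hi0⟩ := exists_block P i0
  obtain ⟨j0, hj0, hne⟩ : ∃ j ∈ β0, j ≠ i0 := by
    by_contra hcon
    push Not at hcon
    have h3 : β0 ⊆ {i0} := fun j hj => mem_singleton.mpr (hcon j hj)
    have h4 := (h2 β0 hβ0).trans (card_le_card h3)
    rw [card_singleton] at h4
    omega
  obtain ⟨ρ, hρ, hρ0⟩ := exists_rep' P hβ0 hj0
  have hmem : i0 ∈ SS P ρ := mem_SS_of_ne hρ hβ0 hi0 (by rw [hρ0]; exact hne.symm)
  rw [← card_SS hρ, ← card_erase_of_mem hmem]
  refine card_le_of_zero hm (fun x y hx hy => ⟨hx.1.sub hy.1, by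
    rw [Pi.sub_apply, hx.2, hy.2, sub_zero]⟩) fun z hz h => ?_
  funext i
  obtain ⟨β, hβ, hi⟩ := exists_block P i
  refine eq_zero_of_SS hρ hz.1 hβ (fun l hl hne => ?_) i hi
  by_cases hl0 : l = i0
  · rw [hl0, hz.2]
  · exact h l (mem_erase.mpr ⟨hl0, mem_SS_of_ne hρ hβ hl hne⟩)

omit [Nonempty ι] in
/-- a block which is cut by the other partition -/
lemma exists_cut {P P' : Finpartition (univ : Finset ι)} (hne : P ≠ P')
    (hc : P.parts.card = P'.parts.card) :
    ∃ β ∈ P.parts, ∃ β' ∈ P'.parts, ∃ i ∈ β, i ∈ β' ∧ ∃ j ∈ β, j ∉ β' := by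
  by_contra hcon
  push Not at hcon
  have hsub : ∀ β ∈ P.parts, ∀ β' ∈ P'.parts, (∃ i ∈ β, i ∈ β') → β ⊆ β' := by
    rintro β hβ β' hβ' ⟨i, hi, hi'⟩ j hj
    exact hcon β hβ β' hβ' i hi hi' j hj
  -- the map
  have hex : ∀ β' : Finset ι, ∃ β : Finset ι, β' ∈ P'.parts → β ∈ P.parts ∧ β ⊆ β' := by
    intro β'
    by_cases h : β' ∈ P'.parts
    · obtain ⟨i, hi⟩ := P'.nonempty_of_mem_parts h
      obtain ⟨β, hβ, hiβ⟩ := exists_block P i
      exact ⟨β, fun _ => ⟨hβ, hsub β hβ β' h ⟨i, hiβ, hi⟩⟩⟩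
    · exact ⟨∅, fun h' => absurd h' h⟩
  choose f hf using hex
  have hinj : Set.InjOn f (P'.parts : Set (Finset ι)) := by
    intro β1 h1 β2 h2 h
    obtain ⟨h3, h4⟩ := hf β1 h1
    obtain ⟨h5, h6⟩ := hf β2 h2
    obtain ⟨i, hi⟩ := P.nonempty_of_mem_parts h3
    exact P'.eq_of_mem_parts h1 h2 (h4 hi) (h6 (by rw [← h]; exact hi))
  have himg : P'.parts.image f = P.parts := by
    apply eq_of_subset_of_card_le
    · intro β hβ
      obtain ⟨β', hβ', rfl⟩ := mem_image.mp hβ
      exact (hf β' hβ').1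
    · rw [card_image_of_injOn hinj, hc]
  apply hne
  have hparts : P'.parts ⊆ P.parts := by
    intro β' hβ'
    obtain ⟨h1, h2⟩ := hf β' hβ'
    have h3 : f β' = β' := by
      apply Subset.antisymm h2
      intro i hi
      obtain ⟨β, hβ, hiβ⟩ := exists_block P i
      rw [← himg] at hβ
      obtain ⟨β'', hβ'', rfl⟩ := mem_image.mp hβ
      have h4 := P'.eq_of_mem_parts hβ'' hβ' ((hf β'' hβ'').2 hiβ) hi
      rw [← h4]
      exact hiβ
    rw [← h3]
    exact h1
  have h4 : P'.parts = P.parts := eq_of_subset_of_card_le hparts hc.le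
  exact Finpartition.ext h4.symm

omit [Nonempty ι] in
/-- the intersections -/
lemma card_Bl_inter_le (hm : 0 < m) {P P' : Finpartition (univ : Finset ι)} (hne : P ≠ P')
    (hc : P.parts.card = P'.parts.card) [DecidablePred fun x => Bl P x ∧ Bl P' x] :
    ((TT ι m).filter fun x => Bl P x ∧ Bl P' x).card ≤
      m ^ (Fintype.card ι - P.parts.card - 1) := by
  obtain ⟨β0, hβ0, β', hβ', i0, hi0, hi0', j0, hj0, hj0'⟩ := exists_cut hne hc
  obtain ⟨ρ, hρ, hρ0⟩ := exists_rep' P hβ0 hj0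
  have hij : i0 ≠ j0 := fun h => hj0' (by rw [← h]; exact hi0')
  have hmem : i0 ∈ SS P ρ := mem_SS_of_ne hρ hβ0 hi0 (by rw [hρ0]; exact hij)
  rw [← card_SS hρ, ← card_erase_of_mem hmem]
  refine card_le_of_zero hm (fun x y hx hy => ⟨hx.1.sub hy.1, hx.2.sub hy.2⟩) fun z hz h => ?_
  have hz' : ∀ l, l ≠ i0 → l ≠ j0 → z l = 0 := by
    intro l hl hlj
    obtain ⟨β, hβ, hlβ⟩ := exists_block P l
    by_cases hββ : β = β0
    · refine h l (mem_erase.mpr ⟨hl, mem_SS_of_ne hρ hβ hlβ ?_⟩)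
      rw [hββ, hρ0]
      exact hlj
    · refine eq_zero_of_SS hρ hz.1 hβ (fun l' hl' hne' => ?_) l hlβ
      refine h l' (mem_erase.mpr ⟨fun h0 => hββ ?_, mem_SS_of_ne hρ hβ hl' hne'⟩)
      exact P.eq_of_mem_parts hβ hβ0 hl' (by rw [h0]; exact hi0)
  have hzi : z i0 = 0 := by
    have h1 := hz.2 β' hβ'
    rw [sum_eq_single i0] at h1
    · exact h1
    · intro l hl hli
      exact hz' l hli fun h0 => hj0' (by rw [← h0]; exact hl)
    · intro h0
      exact absurd hi0' h0
  have hzj : z j0 = 0 := by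
    refine eq_zero_of_SS hρ hz.1 hβ0 (fun l _ hne' => ?_) j0 hj0
    by_cases hl : l = i0
    · rw [hl, hzi]
    · exact hz' l hl (by rw [← hρ0]; exact hne')
  funext l
  by_cases hl : l = i0
  · rw [hl, hzi]; rfl
  · by_cases hl' : l = j0
    · rw [hl', hzj]; rfl
    · rw [hz' l hl hl']; rfl

/-- **The number of the unions of blocks.** -/
theorem card_blocks (hm : 0 < m) (r : ℕ)
    [DecidablePred fun x : ι → UnitAddCircle => ∃ P ∈ BP ι r, Bl P x ∧ ∀ i, x i ≠ 0] :
    ((TT ι m).filter fun x => ∃ P ∈ BP ι r, Bl P x ∧ ∀ i, x i ≠ 0).card ≤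
        (BP ι r).card * m ^ (Fintype.card ι - r) ∧
      (BP ι r).card * m ^ (Fintype.card ι - r) ≤
        ((TT ι m).filter fun x => ∃ P ∈ BP ι r, Bl P x ∧ ∀ i, x i ≠ 0).card +
          ((BP ι r).card * Fintype.card ι + (BP ι r).card ^ 2) *
            m ^ (Fintype.card ι - r - 1) := by
  classical
  set S : Finpartition (univ : Finset ι) → (ι → UnitAddCircle) → Prop :=
    fun P x => Bl P x ∧ ∀ i, x i ≠ 0 with hS
  have hb := union_bounds (BP ι r) (TT ι m) S (U := m ^ (Fintype.card ι - r))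
    (I := m ^ (Fintype.card ι - r - 1)) (fun P hP => by
      obtain ⟨-, h1, h2⟩ := mem_filter.mp hP
      rw [← h1]
      refine (card_le_card fun x hx => ?_).trans (card_Bl_le hm P)
      obtain ⟨h3, h4, -⟩ := mem_filter.mp hx
      exact mem_filter.mpr ⟨h3, h4⟩) (fun P hP P' hP' hne => by
      obtain ⟨-, h1, h2⟩ := mem_filter.mp hP
      obtain ⟨-, h1', h2'⟩ := mem_filter.mp hP'
      rw [← h1]
      refine (card_le_card fun x hx => ?_).trans (card_Bl_inter_le hm hne (h1.trans h1'.symm))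
      obtain ⟨h3, h4, h5⟩ := mem_filter.mp hx
      exact mem_filter.mpr ⟨h3, h4.1, h5.1⟩)
  refine ⟨hb.1, ?_⟩
  have hlow : ∀ P ∈ BP ι r, m ^ (Fintype.card ι - r) ≤ ((TT ι m).filter (S P)).card +
      Fintype.card ι * m ^ (Fintype.card ι - r - 1) := by
    intro P hP
    obtain ⟨-, h1, h2⟩ := mem_filter.mp hP
    rw [← h1]
    refine (le_card_Bl hm P).trans ?_
    have h3 : (TT ι m).filter (Bl P) ⊆ (TT ι m).filter (S P) ∪
        univ.biUnion fun i => (TT ι m).filter fun x => Bl P x ∧ x i = 0 := by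
      intro x hx
      obtain ⟨h3, h4⟩ := mem_filter.mp hx
      rw [mem_union, mem_filter, mem_biUnion]
      by_cases h : ∀ i, x i ≠ 0
      · exact Or.inl ⟨h3, h4, h⟩
      · push Not at h
        obtain ⟨i, hi⟩ := h
        exact Or.inr ⟨i, mem_univ i, mem_filter.mpr ⟨h3, h4, hi⟩⟩
    refine (card_le_card h3).trans ((card_union_le _ _).trans (Nat.add_le_add_left ?_ _))
    refine card_biUnion_le.trans ?_
    refine (sum_le_sum (g := fun _ => m ^ (Fintype.card ι - P.parts.card - 1)) fun i _ =>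
      card_Bl_zero_le hm h2).trans ?_
    rw [sum_const, card_univ, smul_eq_mul]
  have h1 : (BP ι r).card * m ^ (Fintype.card ι - r) ≤ ∑ P ∈ BP ι r, (((TT ι m).filter (S P)).card +
      Fintype.card ι * m ^ (Fintype.card ι - r - 1)) := by
    rw [← smul_eq_mul, ← sum_const]
    exact sum_le_sum hlow
  rw [sum_add_distrib, sum_const, smul_eq_mul] at h1
  calc (BP ι r).card * m ^ (Fintype.card ι - r) ≤ _ := h1
    _ ≤ (((TT ι m).filter fun x => ∃ P ∈ BP ι r, S P x).card +
          (BP ι r).card ^ 2 * m ^ (Fintype.card ι - r - 1)) +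
          (BP ι r).card * (Fintype.card ι * m ^ (Fintype.card ι - r - 1)) :=
        Nat.add_le_add_right hb.2 _
    _ = _ := by ring

end

end Pool.Agent.Q59.GH
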