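import Pool.Agent.Q59.QP.Formal

/-!
# Density of the Galois orbits
-/

namespace Pool.Agent.Q59.GH

open Finset Filter Topology
open Pool.Agent.Q59.QP

/-- the bump function at zero -/
noncomputable def u (z : UnitAddCircle) : ℝ := (1 + (e z).re) / 2

lemma re_e_le (z : UnitAddCircle) : (e z).re ≤ 1 := (Complex.re_le_norm _).trans (norm_e z).le

lemma neg_one_le_re_e (z : UnitAddCircle) : -1 ≤ (e z).re := by
  have h := Complex.abs_re_le_norm (e z)
  rw [norm_e] at h
  exact (abs_le.mp h).1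

lemma u_nonneg (z : UnitAddCircle) : 0 ≤ u z := by
  have := neg_one_le_re_e z
  unfold u
  linarith

lemma u_le_one (z : UnitAddCircle) : u z ≤ 1 := by
  have := re_e_le z
  unfold u
  linarith

@[simp] lemma u_zero : u 0 = 1 := by
  unfold u
  rw [e_zero]
  simp

lemma u_lt_one {z : UnitAddCircle} (hz : z ≠ 0) : u z < 1 := by
  refine lt_of_le_of_ne (u_le_one z) fun h => hz ?_
  apply e_eq_one_iff.mp
  have h1 : (e z).re = 1 := by
    unfold u at h
    linarith
  have h2 : (e z).re ^ 2 + (e z).im ^ 2 = 1 := by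
    have h3 := Complex.sq_norm (e z)
    rw [norm_e, Complex.normSq_apply] at h3
    nlinarith
  have h3 : (e z).im = 0 := by
    rw [h1] at h2
    nlinarith
  apply Complex.ext
  · rw [h1, Complex.one_re]
  · rw [h3, Complex.one_im]

lemma continuous_e : Continuous e := by
  unfold e
  exact continuous_subtype_val.comp AddCircle.continuous_toCircle

lemma continuous_u : Continuous u := by
  unfold u
  exact (continuous_const.add (Complex.continuous_re.comp continuous_e)).div_const 2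

lemma u_eq (z : UnitAddCircle) : (u z : ℂ) = (e z + 1) * (e (-z) + 1) / 4 := by
  have h1 : e z * e (-z) = 1 := by rw [← e_add, add_neg_cancel, e_zero]
  have h2 : e (-z) = (starRingEnd ℂ) (e z) := by
    rw [e_neg]
    exact Complex.inv_eq_conj (norm_e z)
  have h3 : e z + e (-z) = ((2 * (e z).re : ℝ) : ℂ) := by
    rw [h2, Complex.add_conj]
  unfold u
  have h4 : (e z + 1) * (e (-z) + 1) = 2 + (e z + e (-z)) := by
    linear_combination h1
  rw [h4, h3]
  push_cast
  ring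

/-- the frequencies -/
def JJ (K : ℕ) : Finset (ℕ × ℕ) := range (K + 1) ×ˢ range (K + 1)

/-- the weights -/
noncomputable def wt (K : ℕ) (p : ℕ × ℕ) : ℝ := (K.choose p.1 * K.choose p.2 : ℝ) / 4 ^ K

lemma wt_nonneg (K : ℕ) (p : ℕ × ℕ) : 0 ≤ wt K p := by
  unfold wt
  positivity

/-- the frequency -/
def fq (p : ℕ × ℕ) : ℤ := (p.1 : ℤ) - p.2

lemma u_pow (K : ℕ) (z : UnitAddCircle) :
    ((u z : ℂ)) ^ K = ∑ p ∈ JJ K, (wt K p : ℂ) * e (fq p • z) := by
  rw [u_eq, div_pow, mul_pow, add_pow, add_pow, sum_mul_sum, ← sum_product', sum_div]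
  refine sum_congr rfl fun p _ => ?_
  unfold wt fq
  rw [sub_smul, sub_eq_add_neg, e_add, natCast_zsmul, natCast_zsmul, ← smul_neg, e_nsmul, e_nsmul]
  push_cast
  rw [one_pow, one_pow]
  ring

variable {ι : Type*} [Fintype ι]

omit [Fintype ι] in
lemma e_sum (s : Finset ι) (f : ι → UnitAddCircle) : e (∑ i ∈ s, f i) = ∏ i ∈ s, e (f i) := by
  classical
  induction s using Finset.induction_on with
  | empty => simp
  | insert a s ha ih => rw [sum_insert ha, prod_insert ha, e_add, ih]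

open Classical in
/-- the tuples of frequencies -/
noncomputable def PJ (ι : Type*) [Fintype ι] (K : ℕ) : Finset (ι → ℕ × ℕ) :=
  Fintype.piFinset fun _ => JJ K

/-- the weight of a tuple -/
noncomputable def WT (K : ℕ) (P : ι → ℕ × ℕ) : ℝ := ∏ i, wt K (P i)

lemma WT_nonneg (K : ℕ) (P : ι → ℕ × ℕ) : 0 ≤ WT K P := prod_nonneg fun _ _ => wt_nonneg _ _

lemma prod_u_pow (K : ℕ) (z : ι → UnitAddCircle) :
    ((∏ i, u (z i) : ℝ) : ℂ) ^ K = ∑ P ∈ PJ ι K, (WT K P : ℂ) * e (∑ i, fq (P i) • z i) := by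
  classical
  rw [Complex.ofReal_prod, ← prod_pow]
  have h1 : ∀ i, ((u (z i) : ℂ)) ^ K = ∑ p ∈ JJ K, (wt K p : ℂ) * e (fq p • z i) :=
    fun i => u_pow K (z i)
  rw [prod_congr rfl fun i _ => h1 i, prod_univ_sum]
  refine sum_congr (by unfold PJ; congr) fun P _ => ?_
  rw [prod_mul_distrib, e_sum]
  unfold WT
  push_cast
  rfl

/-- the diagonal terms -/
lemma diag_le (K : ℕ) (S : Finset (ι → ℕ × ℕ)) (hS : ∀ P ∈ PJ ι K, (∀ i, fq (P i) = 0) → P ∈ S) :
    (1 / ((K : ℝ) + 1)) ^ Fintype.card ι ≤ ∑ P ∈ S, WT K P := by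
  classical
  have h1 : (1 : ℝ) / (K + 1) ≤ ∑ p ∈ (JJ K).filter (fun p => fq p = 0), wt K p := by
    have h2 : ∑ p ∈ (JJ K).filter (fun p => fq p = 0), wt K p =
        ∑ a ∈ range (K + 1), (K.choose a : ℝ) ^ 2 / 4 ^ K := by
      refine sum_nbij' (fun p => p.1) (fun a => (a, a)) ?_ ?_ ?_ ?_ ?_
      · intro p hp
        exact (mem_product.mp (mem_filter.mp hp).1).1
      · intro a ha
        refine mem_filter.mpr ⟨mem_product.mpr ⟨ha, ha⟩, ?_⟩
        simp [fq]
      · rintro ⟨a, b⟩ hp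
        have h3 : ((a : ℤ) - b) = 0 := (mem_filter.mp hp).2
        have h4 : a = b := by omega
        simp [h4]
      · intro a _
        rfl
      · rintro ⟨a, b⟩ hp
        have h3 : ((a : ℤ) - b) = 0 := (mem_filter.mp hp).2
        have h4 : a = b := by omega
        unfold wt
        simp only [h4]
        ring
    rw [h2, ← sum_div]
    have h3 := sq_sum_le_card_mul_sum_sq (s := range (K + 1)) (f := fun a => (K.choose a : ℝ))
    have h4 : ∑ a ∈ range (K + 1), (K.choose a : ℝ) = 2 ^ K := by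
      have := Nat.sum_range_choose K
      exact_mod_cast this
    rw [h4, card_range] at h3
    push_cast at h3
    have h5 : ((2 : ℝ) ^ K) ^ 2 = 4 ^ K := by
      rw [← pow_mul, mul_comm, pow_mul]
      norm_num
    rw [h5] at h3
    rw [div_le_div_iff₀ (by positivity) (by positivity), one_mul, mul_comm]
    exact h3
  calc (1 / ((K : ℝ) + 1)) ^ Fintype.card ι
      ≤ (∑ p ∈ (JJ K).filter (fun p => fq p = 0), wt K p) ^ Fintype.card ι :=
        pow_le_pow_left₀ (by positivity) h1 _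
    _ = ∏ _i : ι, ∑ p ∈ (JJ K).filter (fun p => fq p = 0), wt K p := by
        rw [prod_const, card_univ]
    _ = ∑ P ∈ Fintype.piFinset (fun _ : ι => (JJ K).filter (fun p => fq p = 0)), WT K P := by
        rw [prod_univ_sum]
        rfl
    _ ≤ ∑ P ∈ S, WT K P := by
        refine sum_le_sum_of_subset_of_nonneg (fun P hP => ?_) fun P _ _ => WT_nonneg _ _
        rw [Fintype.mem_piFinset] at hP
        refine hS P ?_ fun i => (mem_filter.mp (hP i)).2
        unfold PJ
        rw [Fintype.mem_piFinset]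
        exact fun i => (mem_filter.mp (hP i)).1

variable {𝒰 : Ultrafilter ℕ}

/-- **Density of the Galois orbits.** -/
theorem dense {m : ℕ → ℕ} {L : ℕ} (hm : ∀ n, 0 < m n) (hL : ∀ n, L ∣ m n)
    {x : ℕ → ι → UnitAddCircle} (hx : ∀ n i, m n • x n i = 0) {b : ι → UnitAddCircle}
    (hb : ∀ i, L • b i = 0)
    (hΛ : ∀ v : ι → ℤ, Tor 𝒰 (fun n => ∑ i, v i • x n i) →
      ∀ᶠ n in (𝒰 : Filter ℕ), ∑ i, v i • x n i = ∑ i, v i • b i)
    {V : Set (ι → UnitAddCircle)} (hV : IsOpen V) (hbV : b ∈ V) :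
    ∀ᶠ n in (𝒰 : Filter ℕ), ∃ t ∈ T (m n) L, t • x n ∈ V := by
  classical
  by_contra hcon
  rw [← Ultrafilter.eventually_not] at hcon
  push Not at hcon
  -- the function
  set f : (ι → UnitAddCircle) → ℝ := fun y => ∏ i, u (y i - b i) with hf
  have hfc : Continuous f := by
    rw [hf]
    exact continuous_finsetProd _ fun i _ => continuous_u.comp ((continuous_apply i).sub continuous_const)
  have hf0 : ∀ y, 0 ≤ f y := fun y => prod_nonneg fun _ _ => u_nonneg _
  have hf1 : ∀ y, y ≠ b → f y < 1 := by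
    intro y hy
    obtain ⟨i, hi⟩ := Function.ne_iff.mp hy
    rw [hf]
    simp only
    rw [← mul_prod_erase univ _ (mem_univ i)]
    have h1 : ∏ j ∈ univ.erase i, u (y j - b j) ≤ 1 :=
      prod_le_one (fun _ _ => u_nonneg _) fun _ _ => u_le_one _
    have h2 : u (y i - b i) < 1 := u_lt_one (sub_ne_zero.mpr hi)
    calc u (y i - b i) * ∏ j ∈ univ.erase i, u (y j - b j) ≤ u (y i - b i) * 1 :=
          mul_le_mul_of_nonneg_left h1 (u_nonneg _)
      _ < 1 := by rw [mul_one]; exact h2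
  -- the maximum outside of `V`
  obtain ⟨ρ, hρ0, hρ1, hρ⟩ : ∃ ρ : ℝ, 0 ≤ ρ ∧ ρ < 1 ∧ ∀ y, y ∉ V → f y ≤ ρ := by
    rcases (Vᶜ).eq_empty_or_nonempty with hemp | hne
    · refine ⟨0, le_rfl, zero_lt_one, fun y hy => ?_⟩
      have : y ∈ Vᶜ := hy
      rw [hemp] at this
      exact absurd this (Set.notMem_empty y)
    · obtain ⟨y0, hy0, hmax⟩ := hV.isClosed_compl.isCompact.exists_isMaxOn hne hfc.continuousOn
      refine ⟨f y0, hf0 y0, hf1 y0 ?_, fun y hy => hmax hy⟩
      rintro rfl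
      exact hy0 hbV
  -- the averages
  set g : ℕ → ℕ → ℂ := fun K n => avg (m n) L (fun t => ((f (t • x n) : ℝ) : ℂ) ^ K) with hg
  set S : ℕ → Finset (ι → ℕ × ℕ) := fun K =>
    (PJ ι K).filter fun P => Tor 𝒰 (fun n => ∑ i, fq (P i) • x n i) with hS
  have hlim : ∀ K, Tendsto (g K) 𝒰 (𝓝 ((∑ P ∈ S K, WT K P : ℝ) : ℂ)) := by
    intro K
    have h1 : ∀ n, g K n = ∑ P ∈ PJ ι K, (WT K P : ℂ) * (e (-∑ i, fq (P i) • b i) *
        avg (m n) L (fun t => e (t • ∑ i, fq (P i) • x n i))) := by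
      intro n
      rw [hg]
      simp only
      have h2 : ∀ t : ℕ, ((f (t • x n) : ℝ) : ℂ) ^ K = ∑ P ∈ PJ ι K, (WT K P : ℂ) *
          (e (-∑ i, fq (P i) • b i) * e (t • ∑ i, fq (P i) • x n i)) := by
        intro t
        rw [hf]
        simp only
        rw [prod_u_pow]
        refine sum_congr rfl fun P _ => ?_
        rw [← e_add]
        congr 2
        rw [smul_sum, ← sum_neg_distrib, ← sum_add_distrib]
        refine sum_congr rfl fun i _ => ?_
        rw [Pi.smul_apply, smul_sub, smul_comm t]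
        abel
      simp only [h2]
      rw [avg_sum]
      refine sum_congr rfl fun P _ => ?_
      rw [avg_mul_left, avg_mul_left]
    have h2 : ((∑ P ∈ S K, WT K P : ℝ) : ℂ) =
        ∑ P ∈ PJ ι K, (WT K P : ℂ) * (if Tor 𝒰 (fun n => ∑ i, fq (P i) • x n i) then 1 else 0) := by
      rw [hS]
      simp only
      rw [sum_filter]
      push_cast
      refine sum_congr rfl fun P _ => ?_
      split_ifs <;> simp
    rw [funext h1, h2]
    refine tendsto_finsetSum _ fun P _ => Tendsto.const_mul _ ?_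
    by_cases hT : Tor 𝒰 (fun n => ∑ i, fq (P i) • x n i)
    · rw [if_pos hT]
      refine tendsto_const_nhds.congr' ?_
      filter_upwards [hΛ _ hT] with n hn
      rw [hn]
      have h3 : L • (∑ i, fq (P i) • b i) = 0 := by
        rw [smul_sum]
        exact sum_eq_zero fun i _ => by rw [smul_comm, hb, smul_zero]
      rw [avg_of_killed (hm n) (hL n) h3 e, ← e_add, neg_add_cancel, e_zero]
    · rw [if_neg hT]
      have h3 := (tendsto_avg_e (𝒰 := 𝒰) hm hL (z := fun n => ∑ i, fq (P i) • x n i) (fun n => by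
        rw [smul_sum]
        exact sum_eq_zero fun i _ => by rw [smul_comm, hx, smul_zero]) hT).const_mul
          (e (-∑ i, fq (P i) • b i))
      rwa [mul_zero] at h3
  have hle : ∀ K, ∑ P ∈ S K, WT K P ≤ ρ ^ K := by
    intro K
    have h1 : Tendsto (fun n => ‖g K n‖) 𝒰 (𝓝 ‖((∑ P ∈ S K, WT K P : ℝ) : ℂ)‖) := (hlim K).norm
    have h2 : ∀ᶠ n in (𝒰 : Filter ℕ), ‖g K n‖ ≤ ρ ^ K := by
      filter_upwards [hcon] with n hn
      rw [hg]
      simp only
      refine norm_avg_le (pow_nonneg hρ0 K) fun t ht => ?_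
      rw [norm_pow, Complex.norm_real, Real.norm_eq_abs, abs_of_nonneg (hf0 _)]
      exact pow_le_pow_left₀ (hf0 _) (hρ _ (hn t ht)) K
    have h3 := le_of_tendsto h1 h2
    rw [Complex.norm_real, Real.norm_eq_abs] at h3
    exact (le_abs_self _).trans h3
  have hge : ∀ K : ℕ, (1 / ((K : ℝ) + 1)) ^ Fintype.card ι ≤ ∑ P ∈ S K, WT K P := by
    intro K
    refine diag_le K (S K) fun P hP h0 => ?_
    rw [hS]
    refine mem_filter.mpr ⟨hP, ?_⟩
    refine ⟨1, one_pos, Eventually.of_forall fun n => ?_⟩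
    simp [h0]
  -- contradiction
  have h1 := tendsto_pow_const_mul_const_pow_of_abs_lt_one (Fintype.card ι)
    (r := ρ) (by rwa [abs_of_nonneg hρ0])
  have h2 : Tendsto (fun K : ℕ => ((K : ℝ) + 1) ^ Fintype.card ι * ρ ^ (K + 1)) atTop (𝓝 0) := by
    have := h1.comp (tendsto_add_atTop_nat 1)
    refine this.congr fun K => ?_
    simp
  have h3 : ∀ K : ℕ, ρ ≤ ((K : ℝ) + 1) ^ Fintype.card ι * ρ ^ (K + 1) := by
    intro K
    have h4 := (hge K).trans (hle K)
    rw [one_div, inv_pow] at h4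
    have h5 : (0 : ℝ) < ((K : ℝ) + 1) ^ Fintype.card ι := by positivity
    have h6 : 1 ≤ ((K : ℝ) + 1) ^ Fintype.card ι * ρ ^ K := by
      calc (1 : ℝ) = ((K : ℝ) + 1) ^ Fintype.card ι * (((K : ℝ) + 1) ^ Fintype.card ι)⁻¹ :=
            (mul_inv_cancel₀ h5.ne').symm
        _ ≤ _ := mul_le_mul_of_nonneg_left h4 h5.le
    calc ρ = 1 * ρ := (one_mul ρ).symm
      _ ≤ (((K : ℝ) + 1) ^ Fintype.card ι * ρ ^ K) * ρ := mul_le_mul_of_nonneg_right h6 hρ0
      _ = _ := by rw [pow_succ]; ring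
  have h4 : ρ ≤ 0 := ge_of_tendsto' h2 h3
  have h5 : ρ = 0 := le_antisymm h4 hρ0
  have h6 := (hge 1).trans (hle 1)
  rw [h5, pow_one] at h6
  have h7 : (0 : ℝ) < (1 / (((1 : ℕ) : ℝ) + 1)) ^ Fintype.card ι := by positivity
  linarith

end Pool.Agent.Q59.GH
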