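import Pool.Agent.Q59.GH.Age

/-!
# Independent coordinates on a torsion coset
-/

namespace Pool.Agent.Q59.GH

open Finset Filter Topology
open Pool.Agent.Q59.QP

section

variable {ι : Type*} [Fintype ι]

/-- independent sets of coordinates -/
def Ind (Λ : Submodule ℤ (ι → ℤ)) (B : Finset ι) : Prop :=
  ∀ v ∈ Λ, (∀ i, i ∉ B → v i = 0) → v = 0

/-- the points orthogonal to a lattice -/
def Orth (Λ : Submodule ℤ (ι → ℤ)) (h : ι → UnitAddCircle) : Prop := ∀ v ∈ Λ, ∑ i, v i • h i = 0

/-- the pairing with a point -/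
noncomputable def pair (z : ι → UnitAddCircle) : (ι → ℤ) →ₗ[ℤ] UnitAddCircle where
  toFun v := ∑ i, v i • z i
  map_add' v w := by simp only [Pi.add_apply, add_smul, sum_add_distrib]
  map_smul' k v := by simp only [Pi.smul_apply, smul_eq_mul, mul_smul, smul_sum, RingHom.id_apply]

lemma pair_apply (z : ι → UnitAddCircle) (v : ι → ℤ) : pair z v = ∑ i, v i • z i := rfl

/-- **Extension.** -/
lemma exists_extend {Λ : Submodule ℤ (ι → ℤ)} {B : Finset ι} (hB : Ind Λ B)
    (z : ι → UnitAddCircle) : ∃ h : ι → UnitAddCircle, Orth Λ h ∧ ∀ i ∈ B, h i = z i := by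
  classical
  let S : Submodule ℤ (ι → ℤ) :=
    { carrier := {v | ∀ i, i ∉ B → v i = 0}
      add_mem' := fun {v w} hv hw i hi => by rw [Pi.add_apply, hv i hi, hw i hi, add_zero]
      zero_mem' := fun i _ => rfl
      smul_mem' := fun k v hv i hi => by rw [Pi.smul_apply, hv i hi, smul_zero] }
  let f : S →ₗ[ℤ] (ι → ℤ) ⧸ Λ := Λ.mkQ ∘ₗ S.subtype
  have hf : Function.Injective f := by
    rw [← LinearMap.ker_eq_bot, LinearMap.ker_eq_bot']
    rintro ⟨v, hv⟩ h
    have h1 : v ∈ Λ := (Submodule.Quotient.mk_eq_zero Λ).mp h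
    exact Subtype.ext (hB v h1 hv)
  obtain ⟨g, hg⟩ := (Module.Baer.of_divisible UnitAddCircle).extension_property f hf
    (pair z ∘ₗ S.subtype)
  have hsum : ∀ v : ι → ℤ, g (Λ.mkQ v) = ∑ i, v i • g (Λ.mkQ (Pi.single i 1)) := by
    intro v
    have h1 : v = ∑ i, v i • (Pi.single i (1 : ℤ) : ι → ℤ) := by
      funext j
      rw [Finset.sum_apply, sum_eq_single j]
      · simp
      · intro i _ hi
        rw [Pi.smul_apply, Pi.single_eq_of_ne hi.symm, smul_zero]
      · intro h
        exact absurd (mem_univ j) h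
    conv_lhs => rw [h1]
    simp only [map_sum, map_smul]
  refine ⟨fun i => g (Λ.mkQ (Pi.single i 1)), fun v hv => ?_, fun i hi => ?_⟩
  · rw [← hsum v]
    have h1 : Λ.mkQ v = 0 := (Submodule.Quotient.mk_eq_zero Λ).mpr hv
    rw [h1, map_zero]
  · have hmem : (Pi.single i (1 : ℤ) : ι → ℤ) ∈ S := by
      intro j hj
      have hij : j ≠ i := fun h => hj (by rw [h]; exact hi)
      exact Pi.single_eq_of_ne hij _
    have h1 := LinearMap.congr_fun hg ⟨_, hmem⟩
    have h2 : g (Λ.mkQ (Pi.single i 1)) = pair z (Pi.single i 1) := h1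
    simp only
    rw [h2, pair_apply, sum_eq_single i]
    · rw [Pi.single_eq_same, one_smul]
    · intro j _ hj
      rw [Pi.single_eq_of_ne hj, zero_smul]
    · intro h
      exact absurd (mem_univ i) h

/-- a maximal independent set of coordinates -/
structure Bas (Λ : Submodule ℤ (ι → ℤ)) where
  /-- the set of coordinates -/
  B : Finset ι
  /-- independence -/
  ind : Ind Λ B
  /-- the relations -/
  v : ι → ι → ℤ
  /-- they belong to the lattice -/
  mem : ∀ j, j ∉ B → v j ∈ Λ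
  /-- the support -/
  supp : ∀ j, j ∉ B → ∀ i, i ∉ B → i ≠ j → v j i = 0
  /-- the new coordinate -/
  ne : ∀ j, j ∉ B → v j j ≠ 0

lemma exists_bas (Λ : Submodule ℤ (ι → ℤ)) : Nonempty (Bas Λ) := by
  classical
  have hne : (univ.filter fun B : Finset ι => Ind Λ B).Nonempty :=
    ⟨∅, mem_filter.mpr ⟨mem_univ _, fun v _ h => funext fun i => h i (notMem_empty i)⟩⟩
  obtain ⟨B, hB, hmax⟩ := exists_max_image _ Finset.card hne
  have hB1 : Ind Λ B := (mem_filter.mp hB).2
  have hex : ∀ j, ∃ v : ι → ℤ, j ∉ B → v ∈ Λ ∧ (∀ i, i ∉ B → i ≠ j → v i = 0) ∧ v j ≠ 0 := by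
    intro j
    by_cases hj : j ∈ B
    · exact ⟨0, fun h => absurd hj h⟩
    · have h1 : ¬ Ind Λ (insert j B) := by
        intro h
        have h2 := hmax _ (mem_filter.mpr ⟨mem_univ _, h⟩)
        rw [card_insert_of_notMem hj] at h2
        omega
      unfold Ind at h1
      push Not at h1
      obtain ⟨v, hv, hs, h0⟩ := h1
      refine ⟨v, fun _ => ⟨hv, fun i hi hij => hs i ?_, fun hvj => h0 (hB1 v hv fun i hi => ?_)⟩⟩
      · rw [mem_insert]
        rintro (h | h)
        · exact hij h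
        · exact hi h
      · by_cases hij : i = j
        · rw [hij, hvj]
        · refine hs i ?_
          rw [mem_insert]
          rintro (h | h)
          · exact hij h
          · exact hi h
  choose v hv using hex
  exact ⟨⟨B, hB1, v, fun j hj => (hv j hj).1, fun j hj => (hv j hj).2.1, fun j hj => (hv j hj).2.2⟩⟩

lemma sum_supp {B : Finset ι} {j : ι} (hj : j ∉ B) {v : ι → ℤ}
    (hv : ∀ i, i ∉ B → i ≠ j → v i = 0) (x : ι → UnitAddCircle) :
    ∑ i, v i • x i = v j • x j + ∑ i ∈ B, v i • x i := by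
  classical
  rw [← sum_insert (f := fun i => v i • x i) hj]
  symm
  refine sum_subset (subset_univ _) fun i _ hi => ?_
  rw [mem_insert, not_or] at hi
  rw [hv i hi.2 hi.1, zero_smul]

variable {Λ : Submodule ℤ (ι → ℤ)}

/-- the denominator of a basis -/
def Bas.D (b : Bas Λ) : ℕ := ∏ j, if b.v j j = 0 then 1 else (b.v j j).natAbs

lemma Bas.D_pos (b : Bas Λ) : 0 < b.D := by
  unfold Bas.D
  refine prod_pos fun i _ => ?_
  split_ifs with h
  · exact one_pos
  · exact Int.natAbs_pos.mpr h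

lemma Bas.dvd_D (b : Bas Λ) {j : ι} (hj : j ∉ b.B) : (b.v j j).natAbs ∣ b.D := by
  have := dvd_prod_of_mem (fun j => if b.v j j = 0 then 1 else (b.v j j).natAbs) (mem_univ j)
  simp only [if_neg (b.ne j hj)] at this
  exact this

lemma nsmul_of_dvd {a b : ℕ} (h : a ∣ b) {z : UnitAddCircle} (hz : a • z = 0) : b • z = 0 := by
  obtain ⟨c, rfl⟩ := h
  rw [mul_comm, mul_nsmul', hz, nsmul_zero]

/-- orthogonal points with torsion coordinates are torsion -/
lemma Orth.tors (b : Bas Λ) {h : ι → UnitAddCircle} (hh : Orth Λ h) {Q : ℕ}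
    (hQ : ∀ i ∈ b.B, Q • h i = 0) (i : ι) : (Q * b.D) • h i = 0 := by
  by_cases hi : i ∈ b.B
  · rw [mul_comm, mul_nsmul', hQ i hi, nsmul_zero]
  · have h1 := hh _ (b.mem i hi)
    rw [sum_supp hi (b.supp i hi)] at h1
    have h2 : Q • ∑ l ∈ b.B, b.v i l • h l = 0 := by
      rw [smul_sum]
      exact sum_eq_zero fun l hl => by rw [smul_comm, hQ l hl, smul_zero]
    have h3 : b.v i i • (Q • h i) = 0 := by
      have h4 := congrArg (fun z => Q • z) h1
      simp only [smul_add, nsmul_zero] at h4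
      rw [h2, add_zero, smul_comm] at h4
      exact h4
    have h4 := QP.natAbs_nsmul_eq_zero.mpr h3
    rw [← mul_nsmul'] at h4
    refine nsmul_of_dvd ?_ h4
    rw [mul_comm]
    exact Nat.mul_dvd_mul_left Q (b.dvd_D hi)

variable {E : Eqs ι}

lemma Cos.add {x h : ι → UnitAddCircle} (hx : Cos E x) (hh : Orth (lat E) h) : Cos E (x + h) := by
  intro p hp
  have h1 := hh p.1 (Submodule.subset_span ⟨p, hp, rfl⟩)
  simp only [Pi.add_apply, smul_add, sum_add_distrib]
  rw [hx p hp, h1, add_zero]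

lemma Cos.sub {x y : ι → UnitAddCircle} (hx : Cos E x) (hy : Cos E y) : Orth (lat E) (x - y) := by
  intro v hv
  unfold lat at hv
  change pair (x - y) v = 0
  induction hv using Submodule.span_induction with
  | mem v hv =>
    obtain ⟨p, hp, rfl⟩ := hv
    rw [pair_apply]
    simp only [Pi.sub_apply, smul_sub, sum_sub_distrib]
    rw [hx p hp, hy p hp, sub_self]
  | zero => rw [map_zero]
  | add v w _ _ h1 h2 => rw [map_add, h1, h2, add_zero]
  | smul k v _ h1 => rw [map_smul, h1, smul_zero]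

/-- the pairing with an element of the lattice is constant on the coset -/
lemma Cos.pair_eq {x y : ι → UnitAddCircle} (hx : Cos E x) (hy : Cos E y) {v : ι → ℤ}
    (hv : v ∈ lat E) : ∑ i, v i • x i = ∑ i, v i • y i := by
  have h := hx.sub hy v hv
  simp only [Pi.sub_apply, smul_sub, sum_sub_distrib] at h
  exact sub_eq_zero.mp h

/-- **Prescribed coordinates.** -/
lemma exists_point (b : Bas (lat E)) {x0 : ι → UnitAddCircle} (h0 : Cos E x0) (ht : Tors x0)
    {y : ι → UnitAddCircle} {Q : ℕ} (hQ0 : 0 < Q) (hQ : ∀ i ∈ b.B, Q • y i = 0) :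
    ∃ x, Cos E x ∧ Tors x ∧ ∀ i ∈ b.B, x i = y i := by
  obtain ⟨m, hm, hmx⟩ := ht
  have hmxi : ∀ i, m • x0 i = 0 := fun i => congrFun hmx i
  obtain ⟨h, h1, h2⟩ := exists_extend b.ind (fun i => y i - x0 i)
  refine ⟨x0 + h, h0.add h1, ⟨m * (Q * m * b.D), Nat.mul_pos hm (Nat.mul_pos
    (Nat.mul_pos hQ0 hm) b.D_pos), ?_⟩, fun i hi => ?_⟩
  · funext i
    rw [Pi.smul_apply, Pi.add_apply, Pi.zero_apply, smul_add]
    have h3 : (m * (Q * m * b.D)) • x0 i = 0 := nsmul_of_dvd (Dvd.intro _ rfl) (hmxi i)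
    have h4 : (Q * m * b.D) • h i = 0 := by
      refine Orth.tors b h1 (fun l hl => ?_) i
      rw [h2 l hl, smul_sub, nsmul_of_dvd (Dvd.intro _ rfl) (hQ l hl),
        nsmul_of_dvd (Dvd.intro_left _ rfl) (hmxi l), sub_zero]
    rw [h3, nsmul_of_dvd (Dvd.intro_left _ rfl) h4, add_zero]
  · rw [Pi.add_apply, h2 i hi]
    abel

/-- the number of the torsion points of a coset -/
lemma card_cos_le [DecidableEq ι] (b : Bas (lat E)) {m : ℕ} (hm : 0 < m) [DecidablePred (Cos E)] :
    ((TT ι m).filter (Cos E)).card ≤ b.D ^ Fintype.card ι * m ^ b.B.card := by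
  classical
  set f : (ι → UnitAddCircle) → (b.B → UnitAddCircle) := fun x i => x i with hf
  have himg : (((TT ι m).filter (Cos E)).image f).card ≤ m ^ b.B.card := by
    have h1 : (Fintype.piFinset fun _ : b.B => tm m).card = m ^ b.B.card := by
      rw [Fintype.card_piFinset, prod_const, card_tm hm, card_univ, Fintype.card_coe]
    rw [← h1]
    refine card_le_card fun y hy => ?_
    obtain ⟨x, hx, rfl⟩ := mem_image.mp hy
    have hx' := (mem_TT hm).mp (mem_filter.mp hx).1
    exact Fintype.mem_piFinset.mpr fun i => (mem_tm hm).mpr (hx' i)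
  refine (card_le_mul_card_image _ (b.D ^ Fintype.card ι) fun y _ => ?_).trans
    (Nat.mul_le_mul_left _ himg)
  rcases (((TT ι m).filter (Cos E)).filter fun x => f x = y).eq_empty_or_nonempty with hemp | ⟨x', hx'⟩
  · rw [hemp, card_empty]
    exact Nat.zero_le _
  obtain ⟨hx1, hx2⟩ := mem_filter.mp hx'
  have hx3 : Cos E x' := (mem_filter.mp hx1).2
  have h1 : (Fintype.piFinset fun _ : ι => tm b.D).card = b.D ^ Fintype.card ι := by
    rw [Fintype.card_piFinset, prod_const, card_tm b.D_pos, card_univ]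
  rw [← h1]
  refine card_le_card_of_injOn (fun x => x - x') (fun x hx => ?_) (fun x _ z _ h => sub_left_injective h)
  obtain ⟨hy1, hy2⟩ := mem_filter.mp hx
  have hy3 : Cos E x := (mem_filter.mp hy1).2
  refine Fintype.mem_piFinset.mpr fun i => (mem_tm b.D_pos).mpr ?_
  have h2 := Orth.tors b (hy3.sub hx3) (Q := 1) (fun l hl => by
    have h4 := congrFun (hy2.trans hx2.symm) ⟨l, hl⟩
    simp only [hf] at h4
    rw [Pi.sub_apply, h4, sub_self, nsmul_zero]) i
  rwa [one_mul] at h2

end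

end Pool.Agent.Q59.GH
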