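import Pool.Agent.Q59.GH.Link

/-!
# The number of the characters of given coniveau is a quasi-polynomial in the degree
-/

namespace Pool.Agent.Q59.GH

open Finset Polynomial
open Pool.Agent.Q59.QP

section

variable {ι : Type*} [Fintype ι] [DecidableEq ι]

/-- the partition in the fibres of a retraction -/
lemma exists_partition {B : Finset ι} {β : ι → ι} (h1 : ∀ j, j ∉ B → β j = j) (h2 : ∀ i, β i ∉ B) :
    ∃ P : Finpartition (univ : Finset ι), P.parts = Bᶜ.image fun j => univ.filter fun i => β i = j := by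
  refine ⟨⟨Bᶜ.image fun j => univ.filter fun i => β i = j, ?_, ?_, ?_⟩, rfl⟩
  · rw [supIndep_iff_pairwiseDisjoint]
    intro s hs t ht hst
    obtain ⟨j, hj, rfl⟩ := mem_image.mp (mem_coe.mp hs)
    obtain ⟨l, hl, rfl⟩ := mem_image.mp (mem_coe.mp ht)
    simp only [Function.onFun, id]
    rw [disjoint_left]
    intro i hi hi'
    apply hst
    have e1 : β i = j := (mem_filter.mp hi).2
    have e2 : β i = l := (mem_filter.mp hi').2
    rw [← e1, ← e2]
  · apply Subset.antisymm (subset_univ _)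
    intro i _
    rw [mem_sup]
    exact ⟨_, mem_image_of_mem _ (mem_compl.mpr (h2 i)), mem_filter.mpr ⟨mem_univ i, rfl⟩⟩
  · intro h
    obtain ⟨j, hj, hj'⟩ := mem_image.mp h
    have : j ∈ univ.filter fun i => β i = j := mem_filter.mpr ⟨mem_univ j, h1 j (mem_compl.mp hj)⟩
    rw [hj'] at this
    exact notMem_empty j this

variable {c d : ℕ}

/-- tuples on cosets of maximal dimension are unions of blocks -/
lemma blocks_of_max (hd : c + 1 + d = Fintype.card ι) {E : Eqs ι} (hE : Formal (FF ι d) E)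
    (b : Bas (lat E)) (hb : b.B.card = d) {x : ι → UnitAddCircle} (hx : Cos E x) (ht : Tors x)
    (h0 : ∀ i, x i ≠ 0) : ∃ P ∈ BP ι (c + 1), Bl P x ∧ ∀ i, x i ≠ 0 := by
  obtain ⟨β, h1, h2, h3⟩ := block_of_formal hE b hb hx ht
  obtain ⟨P, hP⟩ := exists_partition h1 h2
  have hBl : Bl P x := by
    intro s hs
    rw [hP] at hs
    obtain ⟨j, hj, rfl⟩ := mem_image.mp hs
    exact h3 x hx j (mem_compl.mp hj)
  refine ⟨P, mem_filter.mpr ⟨mem_univ _, ?_, fun s hs => ?_⟩, hBl, h0⟩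
  · rw [hP, card_image_of_injOn, card_compl, hb]
    · omega
    · intro j hj l hl hjl
      have h4 : j ∈ univ.filter fun i => β i = j :=
        mem_filter.mpr ⟨mem_univ j, h1 j (mem_compl.mp hj)⟩
      have h5 : (univ.filter fun i => β i = j) = univ.filter fun i => β i = l := hjl
      rw [h5] at h4
      have h6 : β j = l := (mem_filter.mp h4).2
      rw [h1 j (mem_compl.mp hj)] at h6
      exact h6
  · have hs' := hs
    rw [hP] at hs'
    obtain ⟨j, hj, rfl⟩ := mem_image.mp hs'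
    have h4 : j ∈ univ.filter fun i => β i = j :=
      mem_filter.mpr ⟨mem_univ j, h1 j (mem_compl.mp hj)⟩
    by_contra hcon
    have h5 : (univ.filter fun i => β i = j).card = 1 := by
      have := card_pos.mpr ⟨j, h4⟩
      omega
    obtain ⟨l, hl⟩ := card_eq_one.mp h5
    have h6 : j = l := by
      rw [hl] at h4
      exact mem_singleton.mp h4
    have h7 := hBl _ hs
    rw [hl, sum_singleton, ← h6] at h7
    exact h0 j h7

lemma Bl.aff (P : Finpartition (univ : Finset ι)) : Aff {x : ι → UnitAddCircle | Bl P x} := by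
  refine ⟨(fun β : Finset ι => ((fun i => if i ∈ β then 1 else 0 : ι → ℤ), (0 : UnitAddCircle))) ''
    (P.parts : Set (Finset ι)), ?_⟩
  ext x
  simp only [Set.mem_ofPred_eq, Set.mem_image, mem_coe, forall_exists_index, and_imp,
    forall_apply_eq_imp_iff₂]
  refine forall_congr' fun β => forall_congr' fun _ => ?_
  have : ∑ i, (if i ∈ β then (1 : ℤ) else 0) • x i = ∑ i ∈ β, x i := by
    simp only [ite_smul, one_smul, zero_smul]
    rw [sum_ite_mem, univ_inter]
  rw [this]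

/-- the number of the characters of coniveau at least `c` -/
noncomputable def hcon (ι : Type*) [Fintype ι] (c m : ℕ) : ℕ :=
  Nat.card {s : ι → ZMod m // IsCon c s}

/-- the unions of blocks -/
def IsBl {m : ℕ} (r : ℕ) (s : ι → ZMod m) : Prop :=
  ∃ P ∈ BP ι r, (∀ β ∈ P.parts, ∑ i ∈ β, s i = 0) ∧ ∀ i, s i ≠ 0

/-- the number of the characters of coniveau at least `c` which are not unions of blocks -/
noncomputable def econ (ι : Type*) [Fintype ι] [DecidableEq ι] (c m : ℕ) : ℕ :=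
  Nat.card {s : ι → ZMod m // IsCon c s ∧ ¬ IsBl (c + 1) s}

lemma isBl_iff {m : ℕ} [NeZero m] {r : ℕ} (s : ι → ZMod m) :
    IsBl r s ↔ ∃ P ∈ BP ι r, Bl P (tps s) ∧ ∀ i, tps s i ≠ 0 := by
  unfold IsBl
  refine exists_congr fun P => and_congr_right fun _ => and_congr ?_ ?_
  · refine forall_congr' fun β => forall_congr' fun _ => ?_
    have h : ∑ i ∈ β, tps s i = tp (∑ i ∈ β, s i) := by
      unfold tps
      have : ∀ S : Finset ι, ∑ i ∈ S, tp (s i) = tp (∑ i ∈ S, s i) := by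
        intro S
        induction S using Finset.induction_on with
        | empty => rw [sum_empty, sum_empty, tp_zero]
        | insert a S ha ih => rw [sum_insert ha, sum_insert ha, tp_add, ih]
      exact this β
    rw [h, tp_eq_zero]
  · exact forall_congr' fun i => not_congr tp_eq_zero.symm

/-- the counts -/
theorem counts [Nonempty ι] (hd : c + 1 + d = Fintype.card ι) :
    IsQP (fun m => (hcon ι c m : ℚ)) ∧ IsQP (fun m => (econ ι c m : ℚ)) ∧
      (∃ C : ℚ, ∀ m, 0 < m →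
        |(hcon ι c m : ℚ) - (BP ι (c + 1)).card * (m : ℚ) ^ d| ≤ C * (m : ℚ) ^ (d - 1) ∧
        |(econ ι c m : ℚ)| ≤ C * (m : ℚ) ^ (d - 1)) ∧
      ∀ m, 0 < m → ∀ s : ι → ZMod m, IsBl (c + 1) s → IsCon c s := by
  classical
  obtain ⟨W, hWfin, hWF, hW⟩ := exists_finite (isClosed_FF (ι := ι) d)
  set PH : (ι → UnitAddCircle) → Prop := fun x => (∃ E ∈ W, Cos E x) ∧ ∀ i, x i ≠ 0 with hPH
  set PB : (ι → UnitAddCircle) → Prop := fun x => ∃ P ∈ BP ι (c + 1), Bl P x ∧ ∀ i, x i ≠ 0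
    with hPB
  have hHs : ∀ m : ℕ, [NeZero m] → ∀ s : ι → ZMod m, IsCon c s ↔ PH (tps s) := by
    intro m _ s
    rw [isCon_iff hd, hW _ (tors_tps s), hPH]
    exact and_comm
  have hBs : ∀ m : ℕ, [NeZero m] → ∀ s : ι → ZMod m, IsBl (c + 1) s ↔ PB (tps s) := by
    intro m _ s
    exact isBl_iff s
  have hch : ∀ m, 0 < m → hcon ι c m = ((TT ι m).filter PH).card := by
    intro m hm
    have : NeZero m := ⟨hm.ne'⟩
    exact card_eq_TT' (hHs m)
  have hce : ∀ m, 0 < m → econ ι c m = ((TT ι m).filter fun x => PH x ∧ ¬ PB x).card := by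
    intro m hm
    have : NeZero m := ⟨hm.ne'⟩
    exact card_eq_TT' fun s => and_congr (hHs m s) (not_congr (hBs m s))
  have htors : ∀ m, 0 < m → ∀ x ∈ TT ι m, Tors x := by
    intro m hm x hx
    exact ⟨m, hm, funext fun i => (mem_TT hm).mp hx i⟩
  have hBH : ∀ x, Tors x → PB x → PH x := by
    rintro x ht ⟨P, hP, h1, h2⟩
    refine ⟨(hW x ht).mp (gal_of_blocks (P := P) ?_ h1 ht), h2⟩
    rw [(mem_filter.mp hP).2.1, hd]
  -- quasi-polynomials
  have hgH : Good {x : ι → UnitAddCircle | PH x} := by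
    have h1 : Good ((⋃ E ∈ W, {x : ι → UnitAddCircle | Cos E x}) ∩ ⋂ i, {x | x i = 0}ᶜ) :=
      (Good.biUnion hWfin fun E _ => (Cos.aff E).good).inter
        (Good.iInter fun i => (aff_zero i).good.compl)
    convert h1 using 1
    ext x
    simp [hPH]
  have hgB : Good {x : ι → UnitAddCircle | PB x} := by
    have h1 : Good ((⋃ P ∈ (BP ι (c + 1) : Set (Finpartition (univ : Finset ι))),
        {x : ι → UnitAddCircle | Bl P x}) ∩ ⋂ i, {x | x i = 0}ᶜ) :=
      (Good.biUnion (finite_toSet _) fun P _ => (Bl.aff P).good).inter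
        (Good.iInter fun i => (aff_zero i).good.compl)
    convert h1 using 1
    ext x
    simp [hPB]
    tauto
  have hqH : IsQP (fun m => (hcon ι c m : ℚ)) := by
    refine (hgH.isQP).congr fun m hm => ?_
    rw [hch m hm]
    rfl
  have hqE : IsQP (fun m => (econ ι c m : ℚ)) := by
    refine ((hgH.inter hgB.compl).isQP).congr fun m hm => ?_
    rw [hce m hm]
    rfl
  -- the exceptional part
  have hbas : ∀ E : Eqs ι, ∃ _b : Bas (lat E), True := fun E => by
    obtain ⟨b⟩ := exists_bas (lat E)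
    exact ⟨b, trivial⟩
  choose bs _ using hbas
  obtain ⟨C1, hC1⟩ : ∃ C1 : ℕ, ∀ m, 0 < m →
      ((TT ι m).filter fun x => PH x ∧ ¬ PB x).card ≤ C1 * m ^ (d - 1) := by
    refine ⟨∑ E ∈ hWfin.toFinset, (bs E).D ^ Fintype.card ι, fun m hm => ?_⟩
    have hsub : ((TT ι m).filter fun x => PH x ∧ ¬ PB x) ⊆
        (hWfin.toFinset.filter fun E => (bs E).B.card ≤ d - 1).biUnion
          fun E => (TT ι m).filter (Cos E) := by
      intro x hx
      obtain ⟨h1, ⟨⟨E, hE, hEx⟩, h0⟩, h3⟩ := mem_filter.mp hx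
      have ht := htors m hm x h1
      refine mem_biUnion.mpr ⟨E, mem_filter.mpr ⟨hWfin.mem_toFinset.mpr hE, ?_⟩,
        mem_filter.mpr ⟨h1, hEx⟩⟩
      have h4 := card_le_of_formal (hWF E hE) (bs E) hEx ht
      by_contra hcon
      have h5 : (bs E).B.card = d := by omega
      exact h3 (blocks_of_max hd (hWF E hE) (bs E) h5 hEx ht h0)
    refine (card_le_card hsub).trans (card_biUnion_le.trans ?_)
    rw [sum_mul]
    refine (sum_le_sum (fun E hE => ?_)).trans
      (sum_le_sum_of_subset (filter_subset (fun E => (bs E).B.card ≤ d - 1) hWfin.toFinset))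
    obtain ⟨_, hE2⟩ := mem_filter.mp hE
    refine (card_cos_le (bs E) hm).trans ?_
    exact Nat.mul_le_mul_left _ (Nat.pow_le_pow_right hm hE2)
  refine ⟨hqH, hqE, ?_, ?_⟩
  · set C2 : ℕ := (BP ι (c + 1)).card * Fintype.card ι + (BP ι (c + 1)).card ^ 2 with hC2
    refine ⟨(C1 + C2 : ℕ), fun m hm => ?_⟩
    have hdr : Fintype.card ι - (c + 1) = d := by omega
    obtain ⟨h1, h2⟩ := card_blocks (ι := ι) hm (c + 1)
    rw [hdr] at h1 h2
    have h3 : ((TT ι m).filter PB).card ≤ ((TT ι m).filter PH).card := by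
      refine card_le_card fun x hx => ?_
      obtain ⟨h3, h4⟩ := mem_filter.mp hx
      exact mem_filter.mpr ⟨h3, hBH x (htors m hm x h3) h4⟩
    have h4 : ((TT ι m).filter PH).card ≤ ((TT ι m).filter PB).card +
        ((TT ι m).filter fun x => PH x ∧ ¬ PB x).card := by
      refine le_trans (card_le_card (fun x hx => ?_)) (card_union_le _ _)
      obtain ⟨hx1, hx2⟩ := mem_filter.mp hx
      rw [mem_union, mem_filter, mem_filter]
      by_cases h : PB x
      · exact Or.inl ⟨hx1, h⟩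
      · exact Or.inr ⟨hx1, hx2, h⟩
    have h5 := hC1 m hm
    have h1' : (((TT ι m).filter PB).card : ℚ) ≤ (BP ι (c + 1)).card * (m : ℚ) ^ d := by
      exact_mod_cast h1
    have h2' : ((BP ι (c + 1)).card : ℚ) * (m : ℚ) ^ d ≤ ((TT ι m).filter PB).card +
        C2 * (m : ℚ) ^ (d - 1) := by exact_mod_cast h2
    have h3' : (((TT ι m).filter PB).card : ℚ) ≤ ((TT ι m).filter PH).card := by exact_mod_cast h3
    have h4' : (((TT ι m).filter PH).card : ℚ) ≤ ((TT ι m).filter PB).card +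
        C1 * (m : ℚ) ^ (d - 1) := by exact_mod_cast h4.trans (Nat.add_le_add_left h5 _)
    have h5' : (((TT ι m).filter fun x => PH x ∧ ¬ PB x).card : ℚ) ≤ C1 * (m : ℚ) ^ (d - 1) := by
      exact_mod_cast h5
    have hp : (0 : ℚ) ≤ (m : ℚ) ^ (d - 1) := by positivity
    have hc1 : (0 : ℚ) ≤ C1 * (m : ℚ) ^ (d - 1) := by positivity
    have hc2 : (0 : ℚ) ≤ C2 * (m : ℚ) ^ (d - 1) := by positivity
    rw [hch m hm, hce m hm]
    push_cast
    have h6 : (0 : ℚ) ≤ ((TT ι m).filter fun x => PH x ∧ ¬ PB x).card := Nat.cast_nonneg _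
    rw [abs_le, abs_le, add_mul]
    refine ⟨⟨?_, ?_⟩, ?_, ?_⟩ <;> linarith
  · intro m hm s hs
    have : NeZero m := ⟨hm.ne'⟩
    exact (hHs m s).mpr (hBH _ (tors_tps s) ((hBs m s).mp hs))

/-- **The numbers are quasi-polynomials.** -/
theorem main [Nonempty ι] (hd : c + 1 + d = Fintype.card ι) :
    ∃ P : ℕ, 0 < P ∧ ∃ Q R : ℕ → ℚ[X],
      (∀ j, (Q j).natDegree ≤ d - 1 ∧ (R j).natDegree ≤ d - 1) ∧
      ∀ m, 0 < m →
        (hcon ι c m : ℚ) = (BP ι (c + 1)).card * (m : ℚ) ^ d + (Q (m % P)).eval (m : ℚ) ∧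
        (econ ι c m : ℚ) = (R (m % P)).eval (m : ℚ) := by
  obtain ⟨⟨P1, hP1, Q1, hQ1⟩, ⟨P2, hP2, Q2, hQ2⟩, ⟨C, hC⟩, -⟩ := counts (ι := ι) hd
  set k : ℕ := (BP ι (c + 1)).card with hk
  set P : ℕ := P1 * P2 with hP
  have hP0 : 0 < P := Nat.mul_pos hP1 hP2
  set Qh : ℕ → ℚ[X] := fun j => Q1 (j % P % P1) - Polynomial.C (k : ℚ) * X ^ d with hQh
  set Qe : ℕ → ℚ[X] := fun j => Q2 (j % P % P2) with hQe
  have hevh : ∀ j m, 0 < m → m % P = j % P →
      (Qh j).eval (m : ℚ) = (hcon ι c m : ℚ) - k * (m : ℚ) ^ d := by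
    intro j m hm hj
    have h1 := hQ1 m hm
    simp only at h1
    rw [h1, hQh]
    simp only [eval_sub, eval_mul, eval_C, eval_pow, eval_X]
    rw [← hj, hP, Nat.mod_mul_right_mod]
  have heve : ∀ j m, 0 < m → m % P = j % P → (Qe j).eval (m : ℚ) = (econ ι c m : ℚ) := by
    intro j m hm hj
    have h1 := hQ2 m hm
    simp only at h1
    rw [h1, hQe]
    simp only
    rw [← hj, hP, Nat.mod_mul_left_mod]
  have hpos : ∀ j n : ℕ, 0 < n → 0 < j % P + P * n := by
    intro j n hn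
    have := Nat.mul_pos hP0 hn
    omega
  have hmod : ∀ j n : ℕ, (j % P + P * n) % P = j % P := by
    intro j n
    rw [Nat.add_mul_mod_self_left, Nat.mod_mod]
  refine ⟨P, hP0, Qh, Qe, fun j => ⟨?_, ?_⟩, fun m hm => ⟨?_, ?_⟩⟩
  · refine natDegree_le_of_bound (j := j % P) hP0 (C := C) fun n hn => ?_
    rw [hevh j _ (hpos j n hn) (hmod j n)]
    exact (hC _ (hpos j n hn)).1
  · refine natDegree_le_of_bound (j := j % P) hP0 (C := C) fun n hn => ?_
    rw [heve j _ (hpos j n hn) (hmod j n)]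
    exact (hC _ (hpos j n hn)).2
  · rw [hevh (m % P) m hm (Nat.mod_mod m P).symm]
    ring
  · rw [heve (m % P) m hm (Nat.mod_mod m P).symm]

end

end Pool.Agent.Q59.GH
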