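import Pool.Agent.Q59.GH.Count
import Pool.Agent.Q59.QP.Deg

/-!
# Characters of Fermat varieties and the coniveau
-/

namespace Pool.Agent.Q59.GH

open Finset Polynomial
open Pool.Agent.Q59.QP

section

variable {ι : Type*} [Fintype ι] {m : ℕ}

omit [Fintype ι] in
lemma coe_sum (s : Finset ι) (f : ι → ℝ) :
    ((∑ i ∈ s, f i : ℝ) : UnitAddCircle) = ∑ i ∈ s, ((f i : ℝ) : UnitAddCircle) := by
  classical
  induction s using Finset.induction_on with
  | empty => rfl
  | insert a s ha ih => rw [sum_insert ha, sum_insert ha, AddCircle.coe_add, ih]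

/-- the sum of the fractional parts is an integer -/
lemma exists_int {s : Finset ι} {x : ι → UnitAddCircle} (h : ∑ i ∈ s, x i = 0) :
    ∃ n : ℤ, ∑ i ∈ s, fr (x i) = n := by
  have h1 : ((∑ i ∈ s, fr (x i) : ℝ) : UnitAddCircle) = 0 := by
    rw [coe_sum, ← h]
    exact sum_congr rfl fun i _ => coe_fr _
  obtain ⟨n, hn⟩ := (AddCircle.coe_eq_zero_iff 1).mp h1
  exact ⟨n, by rw [← hn]; simp⟩

/-- a block -/
lemma block_le {s : Finset ι} {x : ι → UnitAddCircle} (h : ∑ i ∈ s, x i = 0) (hne : s.Nonempty) :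
    ∑ i ∈ s, fr (x i) ≤ s.card - 1 := by
  obtain ⟨n, hn⟩ := exists_int h
  have h1 : ∑ i ∈ s, fr (x i) < s.card := by
    have h2 : ∑ i ∈ s, fr (x i) < ∑ _i ∈ s, (1 : ℝ) := sum_lt_sum_of_nonempty hne fun i _ => fr_lt_one _
    rwa [sum_const, nsmul_eq_mul, mul_one] at h2
  rw [hn] at h1 ⊢
  have h2 : n < s.card := by exact_mod_cast h1
  have h3 : n ≤ s.card - 1 := by omega
  exact_mod_cast h3

/-- unions of blocks have all conjugates of small age -/
lemma gal_of_blocks [DecidableEq ι] {P : Finpartition (univ : Finset ι)} {d : ℕ}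
    (hd : P.parts.card + d = Fintype.card ι) {x : ι → UnitAddCircle} (hx : Bl P x) (ht : Tors x) :
    Gal (FF ι d) x := by
  obtain ⟨m, hm, hmx⟩ := ht
  refine ⟨m, hm, hmx, fun t _ => ?_⟩
  have hb : ∀ β ∈ P.parts, ∑ i ∈ β, (t • x) i = 0 := by
    intro β hβ
    simp only [Pi.smul_apply, ← smul_sum]
    rw [hx β hβ, nsmul_zero]
  have hsum : ∀ {M : Type} [AddCommMonoid M] (f : ι → M), ∑ i, f i = ∑ β ∈ P.parts, ∑ i ∈ β, f i := by
    intro M _ f
    have h1 := sum_biUnion (f := f) (s := P.parts) (t := id) P.disjoint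
    rw [P.biUnion_parts] at h1
    exact h1
  constructor
  · rw [hsum]
    exact sum_eq_zero hb
  · rw [hsum]
    refine (sum_le_sum fun β hβ => block_le (hb β hβ) (P.nonempty_of_mem_parts hβ)).trans ?_
    rw [sum_sub_distrib, sum_const, nsmul_eq_mul, mul_one, ← Nat.cast_sum, P.sum_card_parts,
      card_univ, ← hd]
    push_cast
    linarith

lemma fr_tp [NeZero m] (a : ZMod m) : fr (tp a) = a.val / m := by
  unfold tp
  exact fr_pt (ZMod.val_lt a)

variable [NeZero m]

/-- the characters all whose conjugates `s` satisfy `c + 1 ≤ ⟨s⟩ ≤ N - c - 1` -/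
def IsCon (c : ℕ) (s : ι → ZMod m) : Prop :=
  (∀ i, s i ≠ 0) ∧ ∑ i, s i = 0 ∧ ∀ t : (ZMod m)ˣ,
    (c + 1) * m ≤ ∑ i, ((t : ZMod m) * s i).val ∧
      (∑ i, ((t : ZMod m) * s i).val) + (c + 1) * m ≤ Fintype.card ι * m

lemma sum_fr_smul (s : ι → ZMod m) (t : ℕ) :
    ∑ i, fr ((t • tps s) i) = (∑ i, ((t : ZMod m) * s i).val : ℕ) / (m : ℝ) := by
  push_cast
  rw [sum_div]
  refine sum_congr rfl fun i _ => ?_
  rw [Pi.smul_apply]
  unfold tps
  rw [← tp_mul, fr_tp]

lemma sum_tps {s : ι → ZMod m} : ∑ i, tps s i = 0 ↔ ∑ i, s i = 0 := by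
  have h : ∑ i, tps s i = tp (∑ i, s i) := by
    classical
    unfold tps
    have : ∀ S : Finset ι, ∑ i ∈ S, tp (s i) = tp (∑ i ∈ S, s i) := by
      intro S
      induction S using Finset.induction_on with
      | empty => rw [sum_empty, sum_empty, tp_zero]
      | insert a S ha ih => rw [sum_insert ha, sum_insert ha, tp_add, ih]
    exact this univ
  rw [h, tp_eq_zero]

omit [Fintype ι] in
lemma tors_tps (s : ι → ZMod m) : Tors (tps s) :=
  ⟨m, NeZero.pos m, funext fun i => nsmul_tp (s i)⟩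

lemma val_neg_sum {s : ι → ZMod m} (h0 : ∀ i, s i ≠ 0) :
    ∑ i, (-s i).val + ∑ i, (s i).val = Fintype.card ι * m := by
  rw [← sum_add_distrib]
  have : ∀ i ∈ (univ : Finset ι), (-s i).val + (s i).val = m := by
    intro i _
    have : NeZero (s i) := ⟨h0 i⟩
    rw [ZMod.val_neg_of_ne_zero]
    have := ZMod.val_lt (s i)
    omega
  rw [sum_congr rfl this, sum_const, card_univ, smul_eq_mul]

/-- the coniveau in terms of the conjugates -/
lemma isCon_iff {c d : ℕ} (hd : c + 1 + d = Fintype.card ι) (s : ι → ZMod m) :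
    IsCon c s ↔ (∀ i, tps s i ≠ 0) ∧ Gal (FF ι d) (tps s) := by
  have hm : (0 : ℝ) < m := by exact_mod_cast NeZero.pos m
  have hnz : (∀ i, tps s i ≠ 0) ↔ ∀ i, s i ≠ 0 := forall_congr' fun i => not_congr tp_eq_zero
  have hle : ∀ t : ℕ, ∑ i, fr ((t • tps s) i) ≤ d ↔ ∑ i, ((t : ZMod m) * s i).val ≤ d * m := by
    intro t
    rw [sum_fr_smul, div_le_iff₀ hm]
    norm_cast
  constructor
  · rintro ⟨h0, hs, ht⟩
    refine ⟨hnz.mpr h0, m, NeZero.pos m, funext fun i => nsmul_tp (s i), fun t htm => ⟨?_, ?_⟩⟩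
    · simp only [Pi.smul_apply, ← smul_sum]
      rw [sum_tps.mpr hs, nsmul_zero]
    · rw [hle]
      have h1 := (ht (ZMod.unitOfCoprime t htm)).2
      rw [ZMod.coe_unitOfCoprime] at h1
      rw [← hd] at h1
      nlinarith
  · rintro ⟨h0, hG⟩
    have h0' := hnz.mp h0
    have hup : ∀ t : (ZMod m)ˣ, ∑ i, ((t : ZMod m) * s i).val ≤ d * m := by
      intro t
      have h1 := hG.all (NeZero.pos m) (funext fun i => nsmul_tp (s i)) (ZMod.val_coe_unit_coprime t)
      have h2 := (hle _).mp h1.2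
      rwa [ZMod.natCast_zmod_val] at h2
    refine ⟨h0', ?_, fun t => ?_⟩
    · have h1 := hG.all (NeZero.pos m) (funext fun i => nsmul_tp (s i)) (t := 1)
        (Nat.coprime_one_left m)
      rw [one_smul] at h1
      exact sum_tps.mp h1.1
    · have h1 := hup t
      have h2 := hup (-t)
      have h3 : ∀ i, (t : ZMod m) * s i ≠ 0 := fun i h => h0' i ((Units.mul_right_eq_zero t).mp h)
      have h4 := val_neg_sum h3
      have h5 : ∀ i, ((-t : (ZMod m)ˣ) : ZMod m) * s i = -((t : ZMod m) * s i) := by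
        intro i
        rw [Units.val_neg, neg_mul]
      simp only [h5] at h2
      rw [← hd] at h4 ⊢
      constructor <;> nlinarith

/-- counting tuples of residues through points of the circle -/
lemma card_eq_TT' [DecidableEq ι] {P : (ι → ZMod m) → Prop} {Q : (ι → UnitAddCircle) → Prop}
    [DecidablePred Q] (h : ∀ s, P s ↔ Q (tps s)) :
    Nat.card {s : ι → ZMod m // P s} = ((TT ι m).filter Q).card := by
  classical
  rw [Nat.card_eq_fintype_card, Fintype.card_subtype]
  refine card_bij (fun s _ => tps s) ?_ ?_ ?_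
  · intro s hs
    rw [mem_filter, mem_TT (NeZero.pos m)]
    exact ⟨fun i => nsmul_tp _, (h s).mp (mem_filter.mp hs).2⟩
  · intro s _ s' _ hss
    funext i
    exact tp_inj (congrFun hss i)
  · intro x hx
    rw [mem_filter, mem_TT (NeZero.pos m)] at hx
    choose s hs using fun i => exists_tp (hx.1 i)
    have h1 : tps s = x := funext hs
    exact ⟨s, mem_filter.mpr ⟨mem_univ _, (h s).mpr (h1 ▸ hx.2)⟩, h1⟩

end

end Pool.Agent.Q59.GH
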