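import Pool.Agent.Q59.GH.Final

/-!
# Families of characters supported in given codimension
-/

namespace Pool.Agent.Q59.GH

open Finset Polynomial
open Pool.Agent.Q59.QP

/-- the coniveau of a multiset -/
def HasCon {m : ℕ} (c : ℕ) (s : Multiset (ZMod m)) : Prop :=
  (0 : ZMod m) ∉ s ∧ s.sum = 0 ∧ ∀ t : (ZMod m)ˣ,
    (c + 1) * m ≤ (s.map fun a => ((t : ZMod m) * a).val).sum ∧
    (s.map fun a => ((t : ZMod m) * a).val).sum + (c + 1) * m ≤ Multiset.card s * m

/-- the families of the characters supported in given codimension -/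
structure Supp (m : ℕ) (G : ℕ → Multiset (ZMod m) → Prop) : Prop where
  /-- the level -/
  level : ∀ c s, G c s → HasCon c s
  /-- codimension zero -/
  zero : ∀ s : Multiset (ZMod m), s ≠ 0 → (0 : ZMod m) ∉ s → s.sum = 0 → G 0 s
  /-- joins -/
  join : ∀ c d s t, G c s → G d t → G (c + d + 1) (s + t)

section

variable {ι : Type*} [Fintype ι] {m : ℕ}

lemma hasCon_iff {c : ℕ} (s : ι → ZMod m) :
    HasCon c ((univ : Finset ι).val.map s) ↔ IsCon c s := by
  unfold HasCon IsCon
  refine and_congr ?_ (and_congr ?_ (forall_congr' fun t => ?_))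
  · constructor
    · intro h i hi
      exact h (Multiset.mem_map.mpr ⟨i, mem_univ i, hi⟩)
    · intro h h'
      obtain ⟨i, -, hi⟩ := Multiset.mem_map.mp h'
      exact h i hi
  · rfl
  · rw [Multiset.map_map, Multiset.card_map]
    rfl

omit [Fintype ι] in
lemma sum_singletons (β : Finset ι) (s : ι → ZMod m) :
    ∑ i ∈ β, ({s i} : Multiset (ZMod m)) = β.val.map s := by
  change (β.val.map fun i => ({s i} : Multiset (ZMod m))).sum = _
  have : (β.val.map fun i => ({s i} : Multiset (ZMod m))) =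
      (β.val.map s).map fun a => ({a} : Multiset (ZMod m)) := by
    rw [Multiset.map_map]
    rfl
  rw [this, Multiset.sum_map_singleton]

variable [DecidableEq ι]

lemma sum_parts {M : Type*} [AddCommMonoid M] (P : Finpartition (univ : Finset ι)) (f : ι → M) :
    ∑ i, f i = ∑ β ∈ P.parts, ∑ i ∈ β, f i := by
  have h1 := sum_biUnion (f := f) (s := P.parts) (t := id) P.disjoint
  rw [P.biUnion_parts] at h1
  exact h1

/-- unions of blocks are supported in the expected codimension -/
lemma supp_of_blocks {G : ℕ → Multiset (ZMod m) → Prop} (hG : Supp m G) {c : ℕ} {s : ι → ZMod m}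
    (hs : IsBl (c + 1) s) : G c ((univ : Finset ι).val.map s) := by
  obtain ⟨P, hP, h1, h2⟩ := hs
  obtain ⟨-, hPc, -⟩ := mem_filter.mp hP
  have key : ∀ 𝒬 : Finset (Finset ι), 𝒬 ⊆ P.parts → 𝒬.Nonempty →
      G (𝒬.card - 1) (∑ β ∈ 𝒬, β.val.map s) := by
    intro 𝒬
    induction 𝒬 using Finset.induction_on with
    | empty =>
      intro _ h
      exact absurd h (not_nonempty_empty)
    | insert β 𝒬 hβ ih =>
      intro hsub _
      have hβP : β ∈ P.parts := hsub (mem_insert_self _ _)
      have hGβ : G 0 (β.val.map s) := by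
        refine hG.zero _ ?_ ?_ (h1 β hβP)
        · rw [Ne, Multiset.map_eq_zero, Finset.val_eq_zero]
          exact P.ne_empty hβP
        · intro h
          obtain ⟨i, -, hi⟩ := Multiset.mem_map.mp h
          exact h2 i hi
      rw [sum_insert hβ, card_insert_of_notMem hβ]
      rcases 𝒬.eq_empty_or_nonempty with hemp | hne
      · rw [hemp, sum_empty, add_zero, card_empty]
        exact hGβ
      · have h3 := hG.join _ _ _ _ hGβ (ih (fun x hx => hsub (mem_insert_of_mem hx)) hne)
        have h4 := card_pos.mpr hne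
        have h5 : 0 + (𝒬.card - 1) + 1 = 𝒬.card + 1 - 1 := by omega
        rwa [h5] at h3
  have hne : P.parts.Nonempty := by
    rw [← card_pos, hPc]
    exact Nat.succ_pos c
  have h3 := key P.parts (Subset.refl _) hne
  rw [hPc, Nat.add_sub_cancel] at h3
  have h4 : ∑ β ∈ P.parts, β.val.map s = (univ : Finset ι).val.map s := by
    rw [← sum_singletons univ s, sum_parts P]
    exact sum_congr rfl fun β _ => (sum_singletons β s).symm
  rwa [h4] at h3

/-- the number of the supported characters -/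
noncomputable def gcnt (ι : Type*) [Fintype ι] {m : ℕ} (G : ℕ → Multiset (ZMod m) → Prop)
    (c : ℕ) : ℕ :=
  Nat.card {s : ι → ZMod m // G c ((univ : Finset ι).val.map s)}

/-- the supported characters are almost all characters of the given coniveau -/
lemma gcnt_bounds (hm : 0 < m) {G : ℕ → Multiset (ZMod m) → Prop} (hG : Supp m G) (c : ℕ) :
    gcnt ι G c ≤ hcon ι c m ∧ hcon ι c m ≤ gcnt ι G c + econ ι c m := by
  classical
  have : NeZero m := ⟨hm.ne'⟩
  unfold gcnt hcon econ
  rw [Nat.card_eq_fintype_card, Nat.card_eq_fintype_card, Nat.card_eq_fintype_card,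
    Fintype.card_subtype, Fintype.card_subtype, Fintype.card_subtype]
  constructor
  · refine card_le_card fun s hs => ?_
    exact mem_filter.mpr ⟨mem_univ _, (hasCon_iff s).mp (hG.level _ _ (mem_filter.mp hs).2)⟩
  · refine le_trans (card_le_card (fun s hs => ?_)) (card_union_le _ _)
    rw [mem_union, mem_filter, mem_filter]
    by_cases h : IsBl (c + 1) s
    · exact Or.inl ⟨mem_univ _, supp_of_blocks hG h⟩
    · exact Or.inr ⟨mem_univ _, (mem_filter.mp hs).2, h⟩

/-- there are partitions -/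
lemma BP_pos {N r : ℕ} (hr : 0 < r) (h : 2 * r ≤ N) : 0 < (BP (Fin N) r).card := by
  set f : ℕ → ℕ := fun i => 2 * min (i / 2) (r - 1) with hf
  have hfN : ∀ i : Fin N, f i < N := by
    intro i
    rw [hf]
    simp only
    have : min ((i : ℕ) / 2) (r - 1) ≤ r - 1 := min_le_right _ _
    omega
  have hff : ∀ i, f (f i) = f i := by
    intro i
    rw [hf]
    simp only
    rw [Nat.mul_div_cancel_left _ two_pos, min_assoc, min_self]
  set B : Finset (Fin N) := univ.filter fun i => f i ≠ i with hB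
  set β : Fin N → Fin N := fun i => ⟨f i, hfN i⟩ with hβ
  obtain ⟨P, hP⟩ := exists_partition (B := B) (β := β) (fun j hj => by
    rw [hB, mem_filter] at hj
    push Not at hj
    exact Fin.ext (hj (mem_univ j))) (fun i => by
    rw [hB, mem_filter]
    push Not
    intro _
    exact hff i)
  have hmemc : ∀ j : Fin N, j ∈ Bᶜ ↔ ∃ q < r, (j : ℕ) = 2 * q := by
    intro j
    rw [mem_compl, hB, mem_filter]
    push Not
    constructor
    · intro h
      have h1 := h (mem_univ j)
      rw [hf] at h1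
      simp only at h1
      refine ⟨min ((j : ℕ) / 2) (r - 1), ?_, h1.symm⟩
      have : min ((j : ℕ) / 2) (r - 1) ≤ r - 1 := min_le_right _ _
      omega
    · rintro ⟨q, hq, hj⟩ _
      rw [hf]
      simp only
      rw [hj, Nat.mul_div_cancel_left _ two_pos, min_eq_left (by omega)]
  refine card_pos.mpr ⟨P, mem_filter.mpr ⟨mem_univ _, ?_, fun s hs => ?_⟩⟩
  · rw [hP, card_image_of_injOn]
    · have h1 : Bᶜ = univ.image fun q : Fin r => (⟨2 * q, by have := q.isLt; omega⟩ : Fin N) := by
        ext j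
        rw [hmemc, mem_image]
        constructor
        · rintro ⟨q, hq, hj⟩
          exact ⟨⟨q, hq⟩, mem_univ _, Fin.ext hj.symm⟩
        · rintro ⟨q, -, rfl⟩
          exact ⟨q, q.isLt, rfl⟩
      rw [h1, card_image_of_injective, card_univ, Fintype.card_fin]
      intro a b hab
      have h2 : 2 * (a : ℕ) = 2 * b := Fin.mk.inj_iff.mp hab
      exact Fin.ext (by omega)
    · intro j hj l hl hjl
      obtain ⟨q, hq, hjq⟩ := (hmemc j).mp hj
      have h4 : j ∈ univ.filter fun i => β i = j := by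
        refine mem_filter.mpr ⟨mem_univ j, Fin.ext ?_⟩
        have := (mem_compl.mp hj)
        rw [hB, mem_filter] at this
        push Not at this
        exact this (mem_univ j)
      have h5 : (univ.filter fun i => β i = j) = univ.filter fun i => β i = l := hjl
      have h4' := h4
      rw [h5] at h4'
      have h6 : β j = l := (mem_filter.mp h4').2
      have h7 : β j = j := (mem_filter.mp h4).2
      rw [← h7, h6]
  · rw [hP] at hs
    obtain ⟨j, hj, rfl⟩ := mem_image.mp hs
    obtain ⟨q, hq, hjq⟩ := (hmemc j).mp hj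
    have hj1 : 2 * q + 1 < N := by omega
    have hsub : ({j, ⟨2 * q + 1, hj1⟩} : Finset (Fin N)) ⊆ univ.filter fun i => β i = j := by
      intro i hi
      rw [mem_insert, mem_singleton] at hi
      refine mem_filter.mpr ⟨mem_univ i, Fin.ext ?_⟩
      change 2 * min ((i : ℕ) / 2) (r - 1) = j
      rcases hi with rfl | rfl
      · rw [hjq, Nat.mul_div_cancel_left _ two_pos, min_eq_left (by omega)]
      · simp only
        rw [hjq, show (2 * q + 1) / 2 = q by omega, min_eq_left (by omega)]
    have hc : ({j, ⟨2 * q + 1, hj1⟩} : Finset (Fin N)).card = 2 := by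
      rw [card_pair]
      intro h
      have := Fin.mk.inj_iff.mp (h.symm.trans (Fin.ext hjq : j = ⟨2 * q, by omega⟩))
      omega
    rw [← hc]
    exact card_le_card hsub

end

/-- **The theorem for systems.** -/
theorem main_supp {N c : ℕ} (hN : 2 * (c + 1) ≤ N) :
    (∃ P : ℕ, 0 < P ∧ ∃ Q R : ℕ → ℚ[X],
      (∀ j, (Q j).natDegree ≤ N - 2 - c ∧ (R j).natDegree ≤ N - 2 - c) ∧
      ∀ m, 0 < m →
        (hcon (Fin N) c m : ℚ) = (BP (Fin N) (c + 1)).card * (m : ℚ) ^ (N - 1 - c) +
          (Q (m % P)).eval (m : ℚ) ∧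
        (econ (Fin N) c m : ℚ) = (R (m % P)).eval (m : ℚ)) ∧
    ∀ ε : ℚ, 0 < ε → ∃ M : ℕ, ∀ m, M ≤ m → 0 < m →
      (econ (Fin N) c m : ℚ) ≤ ε * hcon (Fin N) c m := by
  have hd : c + 1 + (N - 1 - c) = Fintype.card (Fin N) := by
    rw [Fintype.card_fin]
    omega
  have hne : Nonempty (Fin N) := ⟨⟨0, by omega⟩⟩
  have hd1 : N - 1 - c - 1 = N - 2 - c := by omega
  refine ⟨?_, fun ε hε => ?_⟩
  · obtain ⟨P, hP, Q, R, h1, h2⟩ := main (ι := Fin N) hd
    rw [hd1] at h1
    exact ⟨P, hP, Q, R, h1, h2⟩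
  · obtain ⟨-, -, ⟨C, hC⟩, -⟩ := counts (ι := Fin N) hd
    have hk : 0 < (BP (Fin N) (c + 1)).card := BP_pos (Nat.succ_pos c) hN
    have hk1 : (1 : ℚ) ≤ (BP (Fin N) (c + 1)).card := by exact_mod_cast hk
    obtain ⟨M, hM⟩ := exists_nat_gt ((C + |C| / ε) + 0)
    refine ⟨M, fun m hm hm0 => ?_⟩
    obtain ⟨h1, h2⟩ := hC m hm0
    have hmM : (M : ℚ) ≤ m := by exact_mod_cast hm
    have hm1 : C + |C| / ε < m := by linarith
    have hp : (0 : ℚ) < (m : ℚ) ^ (N - 1 - c - 1) := by
      have : (0 : ℚ) < m := by exact_mod_cast hm0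
      positivity
    have hpow : (m : ℚ) ^ (N - 1 - c) = (m : ℚ) ^ (N - 1 - c - 1) * m := by
      rw [← pow_succ]
      congr 1
      omega
    have h3 : (hcon (Fin N) c m : ℚ) ≥ (m : ℚ) ^ (N - 1 - c - 1) * (m - C) := by
      have h4 := (abs_le.mp h1).1
      have h5 : (m : ℚ) ^ (N - 1 - c) ≤ (BP (Fin N) (c + 1)).card * (m : ℚ) ^ (N - 1 - c) := by
        have h6 : (0 : ℚ) ≤ (m : ℚ) ^ (N - 1 - c) := by positivity
        nlinarith
      rw [hpow] at h5 h4
      linarith
    have h4 : (econ (Fin N) c m : ℚ) ≤ |C| * (m : ℚ) ^ (N - 1 - c - 1) :=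
      (le_abs_self _).trans (h2.trans (mul_le_mul_of_nonneg_right (le_abs_self C) hp.le))
    have h5 : |C| ≤ ε * (m - C) := by
      have h6 : |C| / ε < m - C := by linarith
      rw [div_lt_iff₀ hε] at h6
      linarith
    calc (econ (Fin N) c m : ℚ) ≤ |C| * (m : ℚ) ^ (N - 1 - c - 1) := h4
      _ ≤ ε * (m - C) * (m : ℚ) ^ (N - 1 - c - 1) := mul_le_mul_of_nonneg_right h5 hp.le
      _ = ε * ((m : ℚ) ^ (N - 1 - c - 1) * (m - C)) := by ring
      _ ≤ _ := mul_le_mul_of_nonneg_left h3 hε.le

end Pool.Agent.Q59.GH
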